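import Pool.Agent.R196.SP.Pieces

set_option autoImplicit false

open MeasureTheory

namespace Pool.Agent.R196.SP

section

variable {M : Type} [Fintype M] [Nonempty M] [DecidableEq M] (v : M → ℝ) (w : M → Task → ℝ)
  (L : List Task)

/-- completion times of the algorithm -/
noncomputable def Ct (i : ℕ) : ℝ :=
  if h : i < L.length then
    comp (v (mu v w L i h)) i (hist v w L.reverse (mu v w L i h)) else 0

variable {v w L}

theorem sum_hist (h7 : P7) (hv : ∀ j, 0 < v j) (hL : Valid L) (hw : ∀ j, ∀ τ ∈ L, 0 < w j τ)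
    (f : M → Ev → ℝ) :
    ∑ j, ((hist v w L.reverse j).map (f j)).sum =
      ∑ i : Fin L.length, f (mu v w L i i.2) ⟨i, (L[i]).arr, w (mu v w L i i.2) L[i]⟩ := by
  have h := fun j => (h7 M v w hv L hL hw).2.2.2.1 j (f j)
  simp_rw [h]
  rw [Finset.sum_comm]
  refine Finset.sum_congr rfl fun i _ => ?_
  rw [Finset.sum_eq_single (mu v w L i i.2)]
  · simp
  · intro b _ hb
    rw [if_neg (Ne.symm hb)]
  · intro h; exact absurd (Finset.mem_univ _) h

theorem resp_eq (h5 : P5) (h7 : P7) (h8 : P8) (hv : ∀ j, 0 < v j) (hL : Valid L)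
    (hw : ∀ j, ∀ τ ∈ L, 0 < w j τ) :
    resp L (Ct v w L) = ∑ i : Fin L.length, alpha v w L i i.2 := by
  rw [← (h8 M v w hv L hL hw).1]
  have e : ∀ j, tcost (v j) (hist v w L.reverse j) =
      ((hist v w L.reverse j).map
        (fun e => comp (v j) e.id (hist v w L.reverse j) - e.r)).sum := fun j =>
    (h5 (v j) (hv j) _ ((h7 M v w hv L hL hw).1 j)).symm
  simp_rw [e]
  rw [sum_hist h7 hv hL hw (fun j e => comp (v j) e.id (hist v w L.reverse j) - e.r)]
  unfold resp
  refine Finset.sum_congr rfl fun i _ => ?_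
  have : Ct v w L i = comp (v (mu v w L i i.2)) i (hist v w L.reverse (mu v w L i i.2)) := by
    unfold Ct
    rw [dif_pos i.2]
  rw [this]

theorem arr_le_Ct (h3 : P3) (h7 : P7) (hv : ∀ j, 0 < v j) (hL : Valid L)
    (hw : ∀ j, ∀ τ ∈ L, 0 < w j τ) (i : ℕ) (h : i < L.length) : (L[i]).arr ≤ Ct v w L i := by
  have hG := (h7 M v w hv L hL hw).1 (mu v w L i h)
  have hm := (h7 M v w hv L hL hw).2.1 i h
  have := (h3 (v (mu v w L i h)) (hv _) _ hG).2.1 _ hm
  unfold Ct
  rw [dif_pos h]
  exact this.le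

theorem sum_len (h3 : P3) (h7 : P7) (hv : ∀ j, 0 < v j) (hL : Valid L)
    (hw : ∀ j, ∀ τ ∈ L, 0 < w j τ) (t : ℝ) :
    ∑ j, ((qs (v j) (hist v w L.reverse j) t).length : ℝ) =
      ∑ l : Fin L.length, Set.indicator (Set.Ico (L[l]).arr (Ct v w L l)) (fun _ => (1 : ℝ)) t := by
  have e : ∀ j, ((qs (v j) (hist v w L.reverse j) t).length : ℝ) =
      ((hist v w L.reverse j).map (fun e => Set.indicator
        (Set.Ico e.r (comp (v j) e.id (hist v w L.reverse j))) (fun _ => (1 : ℝ)) t)).sum := fun j =>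
    (h3 (v j) (hv j) _ ((h7 M v w hv L hL hw).1 j)).2.2 t
  simp_rw [e]
  rw [sum_hist h7 hv hL hw (fun j e => Set.indicator
        (Set.Ico e.r (comp (v j) e.id (hist v w L.reverse j))) (fun _ => (1 : ℝ)) t)]
  refine Finset.sum_congr rfl fun i _ => ?_
  have : Ct v w L i = comp (v (mu v w L i i.2)) i (hist v w L.reverse (mu v w L i i.2)) := by
    unfold Ct
    rw [dif_pos i.2]
  rw [this]

/-- a job in service at `j` was sent to `j` -/
theorem hd_mu (h2 : P2) (h7 : P7) (hv : ∀ j, 0 < v j) (hL : Valid L)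
    (hw : ∀ j, ∀ τ ∈ L, 0 < w j τ) (j : M) (t : ℝ) (i : ℕ)
    (h : hd (qs (v j) (hist v w L.reverse j) t) = some i) :
    ∃ hi : i < L.length, j = mu v w L i hi ∧ (L[i]).arr ≤ t := by
  have hm : i ∈ ids (qs (v j) (hist v w L.reverse j) t) := by
    unfold hd at h
    exact List.mem_of_mem_head? (by rw [h]; rfl)
  obtain ⟨e, he, rfl, hr⟩ := (h2 (v j) (hv j)).2.1 _ t i hm
  obtain ⟨hi, hj, h1, -⟩ := (h7 M v w hv L hL hw).2.2.1 j e he
  exact ⟨hi, hj, by rw [← h1]; exact hr⟩

end

/-- the general scheduler -/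
noncomputable def sched {p : ℕ} {M : Type} [Fintype M] [Nonempty M] [DecidableEq M] (v : M → ℝ)
    (w : M → Task → ℝ) (mach : Fin p → M) (isPar : M → Bool) : Scheduler p where
  choose H := match H.reverse with
    | [] => false
    | τ :: R => isPar (pick v w τ (hist v w R))
  alloc H t k := hd (qs (v (mach k)) (hist v w H.reverse (mach k)) t)

section

variable {p : ℕ} {M : Type} [Fintype M] [Nonempty M] [DecidableEq M] {v : M → ℝ}
    {w : M → Task → ℝ} {mach : Fin p → M} {isPar : M → Bool} {L : List Task}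

theorem sched_c (i : ℕ) (h : i < L.length) :
    (sched v w mach isPar).c L i = isPar (mu v w L i h) := by
  have e : (L.take (i + 1)).reverse = L[i] :: (L.take i).reverse := by
    rw [List.take_succ_eq_append_getElem h]
    simp
  unfold Scheduler.c sched mu
  simp only [e]

theorem sched_a (h7 : P7) (hv : ∀ j, 0 < v j) (hL : Valid L)
    (hw : ∀ j, ∀ τ ∈ L, 0 < w j τ) (k : Fin p) (t : ℝ) :
    (sched v w mach isPar).a L k t = hd (qs (v (mach k)) (hist v w L.reverse (mach k)) t) := by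
  unfold Scheduler.a sched
  simp only
  rw [(h7 M v w hv L hL hw).2.2.2.2 (mach k) t]

theorem load_eq (h2 : P2) (h7 : P7) (hv : ∀ j, 0 < v j) (hL : Valid L)
    (hw : ∀ j, ∀ τ ∈ L, 0 < w j τ) (i : ℕ) (h : i < L.length) (t : ℝ) :
    (load ((sched v w mach isPar).a L) i t : ℝ) =
      ((Finset.univ.filter (fun k => mach k = mu v w L i h)).card : ℝ) *
      Set.indicator {t | hd (qs (v (mu v w L i h)) (hist v w L.reverse (mu v w L i h)) t) = some i}
        (fun _ => (1 : ℝ)) t := by
  unfold load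
  simp_rw [sched_a h7 hv hL hw]
  by_cases hh : hd (qs (v (mu v w L i h)) (hist v w L.reverse (mu v w L i h)) t) = some i
  · rw [Set.indicator_of_mem (by exact hh)]
    rw [mul_one]
    congr 2
    ext k
    simp only [Finset.mem_filter, Finset.mem_univ, true_and]
    constructor
    · intro hk
      obtain ⟨hi, hj, -⟩ := hd_mu h2 h7 hv hL hw _ t i hk
      exact hj
    · intro hk
      rw [hk]
      exact hh
  · rw [Set.indicator_of_notMem (by exact hh)]
    rw [mul_zero]
    norm_cast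
    rw [Finset.card_eq_zero, Finset.filter_eq_empty_iff]
    intro k _ hk
    obtain ⟨hi, hj, -⟩ := hd_mu h2 h7 hv hL hw _ t i hk
    rw [hj] at hk
    exact hh hk

theorem load_zero (h2 : P2) (h7 : P7) (hv : ∀ j, 0 < v j) (hL : Valid L)
    (hw : ∀ j, ∀ τ ∈ L, 0 < w j τ) (i : ℕ) (h : ¬ i < L.length) (t : ℝ) :
    load ((sched v w mach isPar).a L) i t = 0 := by
  unfold load
  simp_rw [sched_a h7 hv hL hw]
  rw [Finset.card_eq_zero, Finset.filter_eq_empty_iff]
  intro k _ hk
  obtain ⟨hi, hj, -⟩ := hd_mu h2 h7 hv hL hw _ t i hk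
  exact h hi

theorem sched_feasible (h2 : P2) (h3 : P3) (h4 : P4) (h7 : P7)
    (hv : ∀ j, v j = 6 * ((Finset.univ.filter (fun k => mach k = j)).card : ℝ))
    (hv0 : ∀ j, 0 < v j)
    (hser : ∀ j, isPar j = false → (Finset.univ.filter (fun k => mach k = j)).card ≤ 1)
    (hwk : ∀ j τ, w j τ = work (isPar j) τ) (hL : Valid L) :
    Feasible p 6 L ((sched v w mach isPar).c L) ((sched v w mach isPar).a L) (Ct v w L) := by
  have hw : ∀ j, ∀ τ ∈ L, 0 < w j τ := by
    intro j τ hτ
    rw [hwk]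
    unfold work
    split_ifs
    · exact (hL.ser_pos τ hτ).trans (hL.ser_lt τ hτ)
    · exact hL.ser_pos τ hτ
  refine ⟨?_, ?_, ?_, fun i h => arr_le_Ct h3 h7 hv0 hL hw i h, ?_⟩
  · intro k i
    simp_rw [sched_a h7 hv0 hL hw]
    exact (h4 (v (mach k)) (hv0 _) _ ((h7 M v w hv0 L hL hw).1 (mach k))).1 i
  · intro k t i hk
    rw [sched_a h7 hv0 hL hw] at hk
    obtain ⟨hi, -, ha⟩ := hd_mu h2 h7 hv0 hL hw _ t i hk
    exact ⟨hi, ha⟩
  · intro i hc t
    by_cases h : i < L.length
    · rw [sched_c i h] at hc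
      have e := load_eq (mach := mach) (isPar := isPar) h2 h7 hv0 hL hw i h t
      have h1 := hser _ hc
      have h1' : ((Finset.univ.filter (fun k => mach k = mu v w L i h)).card : ℝ) ≤ 1 := by
        exact_mod_cast h1
      have : (load ((sched v w mach isPar).a L) i t : ℝ) ≤ 1 := by
        rw [e]
        by_cases hh : t ∈ {t | hd (qs (v (mu v w L i h)) (hist v w L.reverse (mu v w L i h)) t) =
          some i}
        · rw [Set.indicator_of_mem hh]; linarith
        · rw [Set.indicator_of_notMem hh]; linarith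
      exact_mod_cast this
    · rw [load_zero h2 h7 hv0 hL hw i h t]
      exact Nat.zero_le _
  · intro i h
    rw [sched_c i h, ← hwk]
    simp_rw [load_eq (mach := mach) (isPar := isPar) h2 h7 hv0 hL hw i h]
    rw [intervalIntegral.integral_const_mul, ← mul_assoc, ← hv]
    have hG := (h7 M v w hv0 L hL hw).1 (mu v w L i h)
    have hm := (h7 M v w hv0 L hL hw).2.1 i h
    have h4' := (h4 (v (mu v w L i h)) (hv0 _) _ hG).2 _ hm
    have hC : Ct v w L i = comp (v (mu v w L i h)) i (hist v w L.reverse (mu v w L i h)) := by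
      unfold Ct
      rw [dif_pos h]
    rw [hC]
    exact h4'.ge

end

end Pool.Agent.R196.SP
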