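import Pool.Agent.R196.SP.Asm1

set_option autoImplicit false

open MeasureTheory

namespace Pool.Agent.R196.SP

section

variable {p : ℕ} {M : Type} [Fintype M] [Nonempty M] [DecidableEq M] {v : M → ℝ}
    {w : M → Task → ℝ} {mach : Fin p → M} {isPar : M → Bool}

theorem gen (h2 : P2) (h3 : P3) (h4 : P4) (h5 : P5) (h6 : P6) (h7 : P7) (h8 : P8)
    (hp : 1 ≤ p)
    (hv : ∀ j, v j = 6 * ((Finset.univ.filter (fun k => mach k = j)).card : ℝ))
    (hv0 : ∀ j, 0 < v j)
    (hser : ∀ j, isPar j = false → (Finset.univ.filter (fun k => mach k = j)).card ≤ 1)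
    (hwk : ∀ j τ, w j τ = work (isPar j) τ)
    (hm : p ≤ 3 * (Finset.univ.filter (fun j => isPar j = false)).card)
    (hpar : (∃ j, isPar j = true ∧ 2 * (p : ℝ) ≤ v j) ∨ p = 1) :
    Competitive (sched v w mach isPar) 6 4 := by
  intro L hL
  have hw : ∀ j, ∀ τ ∈ L, 0 < w j τ := by
    intro j τ hτ
    rw [hwk]
    unfold work
    split_ifs
    · exact (hL.ser_pos τ hτ).trans (hL.ser_lt τ hτ)
    · exact hL.ser_pos τ hτ
  refine ⟨Ct v w L, sched_feasible h2 h3 h4 h7 hv hv0 hser hwk hL, ?_⟩
  intro c' a' C' hf
  -- serial machines have rate 6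
  have hv6 : ∀ j, isPar j = false → v j = 6 := by
    intro j hj
    have h1 := hser j hj
    have h0 := hv0 j
    rw [hv j] at h0 ⊢
    have : (Finset.univ.filter (fun k => mach k = j)).card = 1 := by
      rcases Nat.eq_zero_or_pos (Finset.univ.filter (fun k => mach k = j)).card with h | h
      · rw [h] at h0; simp at h0
      · omega
    rw [this]; norm_num
  have hp0 : (0 : ℝ) < p := by exact_mod_cast hp
  set N : ℝ → ℝ := fun t => ∑ l : Fin L.length, Set.indicator (Set.Ico (L[l]).arr (Ct v w L l))
    (fun _ => (1 : ℝ)) t with hN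
  have hN0 : ∀ t, 0 ≤ N t := fun t => Finset.sum_nonneg fun l _ =>
    Set.indicator_nonneg (fun _ _ => zero_le_one) _
  have hlen := fun t => sum_len (v := v) (w := w) (L := L) h3 h7 hv0 hL hw t
  have h8' := (h8 M v w hv0 L hL hw).2
  set al : ℕ → ℝ := fun i => if h : i < L.length then alpha v w L i h else 0 with hal
  have hal' : ∀ (i : ℕ) (h : i < L.length), al i = alpha v w L i h := by
    intro i h
    rw [hal]
    simp only
    rw [dif_pos h]
  -- serial constraint
  have hS : ∀ (i : ℕ) (h : i < L.length) (t : ℝ), (L[i]).arr ≤ t →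
      al i ≤ (t - (L[i]).arr) + (L[i]).ser + (L[i]).ser / (2 * p) * N t := by
    intro i h t ht
    rw [hal' i h]
    have hs := hL.ser_pos L[i] (List.getElem_mem h)
    set F := Finset.univ.filter (fun j => isPar j = false) with hF
    have hFc : (0 : ℝ) < F.card := by
      have : 0 < F.card := by omega
      exact_mod_cast this
    have hb : ∀ j ∈ F, alpha v w L i h ≤ (t - (L[i]).arr) + (L[i]).ser / 6 +
        (L[i]).ser / 6 * (qs (v j) (hist v w L.reverse j) t).length := by
      intro j hj
      have hj' : isPar j = false := by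
        rw [hF, Finset.mem_filter] at hj
        exact hj.2
      have := h8' i h j t ht
      rw [hwk, hv6 j hj', hj'] at this
      simp only [work, Bool.false_eq_true, if_false] at this
      rw [hv6 j hj']
      exact this
    have hsum := Finset.sum_le_sum hb
    rw [Finset.sum_const, Finset.sum_add_distrib, Finset.sum_const, ← Finset.mul_sum] at hsum
    simp only [nsmul_eq_mul] at hsum
    have hle : ∑ j ∈ F, ((qs (v j) (hist v w L.reverse j) t).length : ℝ) ≤ N t := by
      rw [hN]
      simp only
      rw [← hlen t]
      exact Finset.sum_le_sum_of_subset_of_nonneg (Finset.subset_univ _)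
        (fun _ _ _ => Nat.cast_nonneg _)
    have h1 : (F.card : ℝ) * alpha v w L i h ≤
        F.card * ((t - (L[i]).arr) + (L[i]).ser / 6) + (L[i]).ser / 6 * N t := by
      have := mul_le_mul_of_nonneg_left hle (show (0 : ℝ) ≤ (L[i]).ser / 6 by positivity)
      linarith
    have h2 : alpha v w L i h ≤ ((t - (L[i]).arr) + (L[i]).ser / 6) +
        ((L[i]).ser / 6 * N t) / F.card := by
      rw [← sub_le_iff_le_add', le_div_iff₀ hFc]
      linarith
    have h3 : ((L[i]).ser / 6 * N t) / F.card ≤ (L[i]).ser / (2 * p) * N t := by
      have hpF : (p : ℝ) ≤ 3 * F.card := by exact_mod_cast hm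
      rw [div_mul_eq_mul_div, div_div, div_mul_eq_mul_div]
      apply div_le_div_of_nonneg_left
      · exact mul_nonneg hs.le (hN0 t)
      · positivity
      · linarith
    have h4 : (L[i]).ser / 6 ≤ (L[i]).ser := by linarith
    linarith
  -- parallel constraint
  have hP : ∀ (i : ℕ) (h : i < L.length) (t : ℝ), (L[i]).arr ≤ t →
      al i ≤ (t - (L[i]).arr) + (L[i]).par / p + (L[i]).par / (2 * p) * N t := by
    intro i h t ht
    have hs := hL.ser_pos L[i] (List.getElem_mem h)
    have hlt := hL.ser_lt L[i] (List.getElem_mem h)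
    have hpp : 0 < (L[i]).par := hs.trans hlt
    rcases hpar with ⟨j, hj, hvj⟩ | h1
    · rw [hal' i h]
      have := h8' i h j t ht
      rw [hwk, hj] at this
      simp only [work, if_true] at this
      have hq : ((qs (v j) (hist v w L.reverse j) t).length : ℝ) ≤ N t := by
        rw [hN]
        simp only
        rw [← hlen t]
        exact Finset.single_le_sum
          (f := fun j => ((qs (v j) (hist v w L.reverse j) t).length : ℝ))
          (fun _ _ => Nat.cast_nonneg _) (Finset.mem_univ j)
      have hvj0 := hv0 j
      have e1 : (L[i]).par / v j ≤ (L[i]).par / (2 * p) :=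
        div_le_div_of_nonneg_left hpp.le (by positivity) hvj
      have e2 : (L[i]).par / (2 * p) ≤ (L[i]).par / p :=
        div_le_div_of_nonneg_left hpp.le hp0 (by linarith)
      have e3 : (L[i]).par / v j * (qs (v j) (hist v w L.reverse j) t).length ≤
          (L[i]).par / (2 * p) * N t :=
        mul_le_mul e1 hq (Nat.cast_nonneg _) (by positivity)
      linarith
    · have := hS i h t ht
      subst h1
      have e1 : (L[i]).ser / (2 * ((1 : ℕ) : ℝ)) * N t ≤ (L[i]).par / (2 * ((1 : ℕ) : ℝ)) * N t :=
        mul_le_mul_of_nonneg_right (div_le_div_of_nonneg_right hlt.le (by positivity)) (hN0 t)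
      have e2 : (L[i]).par / ((1 : ℕ) : ℝ) = (L[i]).par := by simp
      rw [e2]
      linarith
  have key := h6 p hp L hL al (Ct v w L) (fun i h => arr_le_Ct h3 h7 hv0 hL hw i h) hS hP
    c' a' C' hf
  have hF : resp L (Ct v w L) = ∑ i : Fin L.length, al i := by
    rw [resp_eq h5 h7 h8 hv0 hL hw]
    exact Finset.sum_congr rfl fun i _ => (hal' i i.2).symm
  linarith

end

/-- processor assignment for `p ≥ 2` -/
def machF (p : ℕ) (k : Fin p) : Option (Fin (p - p / 2)) :=
  if h : k.1 < p / 2 then none else some ⟨k.1 - p / 2, by have := k.2; omega⟩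

theorem card_none (p : ℕ) : (Finset.univ.filter (fun k => machF p k = none)).card = p / 2 := by
  have : (Finset.univ.filter (fun k : Fin p => machF p k = none)) =
      Finset.univ.filter (fun k : Fin p => k.1 < p / 2) := by
    ext k
    rw [Finset.mem_filter, Finset.mem_filter]
    simp only [Finset.mem_univ, true_and]
    unfold machF
    split_ifs with h <;> simp [h]
  rw [this]
  have h2 : p / 2 ≤ p := Nat.div_le_self _ _
  rw [Fin.card_filter_val_lt]
  omega

theorem card_some (p : ℕ) (j : Fin (p - p / 2)) :
    (Finset.univ.filter (fun k => machF p k = some j)).card = 1 := by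
  rw [Finset.card_eq_one]
  have hj := j.2
  refine ⟨⟨p / 2 + j.1, by omega⟩, ?_⟩
  ext k
  rw [Finset.mem_filter, Finset.mem_singleton]
  simp only [Finset.mem_univ, true_and]
  unfold machF
  split_ifs with h
  · constructor
    · intro hh; cases hh
    · intro hh; rw [hh] at h; simp at h
  · rw [Option.some.injEq]
    constructor
    · intro hh
      ext
      simp only
      rw [← hh]
      simp only
      omega
    · intro hh
      ext
      simp only [hh]
      omega

theorem main (h2 : P2) (h3 : P3) (h4 : P4) (h5 : P5) (h6 : P6) (h7 : P7) (h8 : P8) : Main := by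
  intro p hp
  rcases Nat.lt_or_ge p 2 with h | h
  · -- one processor
    have hp1 : p = 1 := by omega
    subst hp1
    refine ⟨sched (M := Unit) (fun _ => 6) (fun _ τ => work false τ) (fun _ => ())
      (fun _ => false), gen h2 h3 h4 h5 h6 h7 h8 hp ?_ ?_ ?_ ?_ ?_ (Or.inr rfl)⟩
    · intro j; simp
    · intro j; norm_num
    · intro j _; simp
    · intro j τ; rfl
    · simp
  · set m := p - p / 2 with hmdef
    have hm0 : 0 < m := by omega
    refine ⟨sched (M := Option (Fin m)) (fun j => if j = none then 6 * ((p / 2 : ℕ) : ℝ) else 6)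
      (fun j τ => work (decide (j = none)) τ) (machF p)
      (fun j => decide (j = none)), gen h2 h3 h4 h5 h6 h7 h8 hp ?_ ?_ ?_ ?_ ?_ (Or.inl ?_)⟩
    · intro j
      cases j with
      | none => rw [card_none]; simp
      | some j => rw [card_some]; simp
    · intro j
      cases j with
      | none =>
        have : 0 < p / 2 := by omega
        have : (0 : ℝ) < ((p / 2 : ℕ) : ℝ) := by exact_mod_cast this
        simp only [if_true]
        positivity
      | some j => simp
    · intro j hj
      cases j with
      | none => simp at hj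
      | some j => rw [card_some]
    · intro j τ; rfl
    · have : (Finset.univ.filter (fun j : Option (Fin m) => decide (j = none) = false)).card
          = m := by
        have e : Finset.univ.filter (fun j : Option (Fin m) => decide (j = none) = false) =
            Finset.univ.image (some : Fin m → Option (Fin m)) := by
          ext j
          cases j <;> simp
        rw [e, Finset.card_image_of_injective _ (Option.some_injective _)]
        simp
      rw [this]
      omega
    · refine ⟨none, by simp, ?_⟩
      simp only [if_true]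
      have : p ≤ 3 * (p / 2) := by omega
      have : (p : ℝ) ≤ 3 * ((p / 2 : ℕ) : ℝ) := by exact_mod_cast this
      linarith

end Pool.Agent.R196.SP
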