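import Pool.Agent.R196.SP.Stmt

/-!
# Working definitions: shortest-remaining-time queues and greedy dispatch
-/

set_option autoImplicit false

open MeasureTheory

namespace Pool.Agent.R196.SP

/-- an arrival at a queue -/
structure Ev where
  /-- job identifier -/
  id : ℕ
  /-- arrival time -/
  r : ℝ
  /-- work -/
  w : ℝ

/-- queue contents: (identifier, remaining work), in order of remaining work -/
abbrev Queue := List (ℕ × ℝ)

/-- serve the queue (first job first) with total work `x` -/
noncomputable def serve : ℝ → Queue → Queue
  | _, [] => []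
  | x, (i, r) :: Q => if x < r then (i, r - x) :: Q else serve (x - r) Q

/-- sorted insertion -/
noncomputable def ins (i : ℕ) (w : ℝ) : Queue → Queue
  | [] => [(i, w)]
  | (j, r) :: Q => if w < r then (i, w) :: (j, r) :: Q else (j, r) :: ins i w Q

/-- contents at time `t` of a queue with service rate `v` and arrivals `E` (latest first) -/
noncomputable def qs (v : ℝ) : List Ev → ℝ → Queue
  | [], _ => []
  | e :: E, t => if t < e.r then qs v E t else serve (v * (t - e.r)) (ins e.id e.w (qs v E e.r))

/-- identifiers in a queue -/
def ids (Q : Queue) : List ℕ := Q.map Prod.fst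

/-- the job in service -/
def hd (Q : Queue) : Option ℕ := (ids Q).head?

/-- `sum min(remaining, w)` -/
noncomputable def G (w : ℝ) (Q : Queue) : ℝ := (Q.map (fun q => min q.2 w)).sum

/-- increase of the total response time when a job with work `w` is added -/
noncomputable def cost (v w : ℝ) (Q : Queue) : ℝ := (w + G w Q) / v

/-- sorted and positive remaining works -/
def SQ (Q : Queue) : Prop := Q.Pairwise (fun a b => a.2 ≤ b.2) ∧ ∀ q ∈ Q, 0 < q.2

/-- remaining work of job `i` (zero if absent) -/
noncomputable def remQ (i : ℕ) : Queue → ℝ
  | [] => 0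
  | (j, r) :: Q => if j = i then r else remQ i Q

/-- amount of service after which job `i` is completed -/
noncomputable def compQ (i : ℕ) : Queue → ℝ
  | [] => 0
  | (j, r) :: Q => if j = i then r else r + compQ i Q

/-- completion time of job `i` -/
noncomputable def comp (v : ℝ) (i : ℕ) : List Ev → ℝ
  | [] => 0
  | e :: E => if i ∈ ids (ins e.id e.w (qs v E e.r)) then
      e.r + compQ i (ins e.id e.w (qs v E e.r)) / v else comp v i E

/-- total cost of the arrivals -/
noncomputable def tcost (v : ℝ) : List Ev → ℝ
  | [] => 0
  | e :: E => tcost v E + cost v e.w (qs v E e.r)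

/-- admissible event lists (latest first) -/
structure GoodE (E : List Ev) : Prop where
  sorted : E.Pairwise (fun a b => b.r ≤ a.r)
  nodup : (E.map Ev.id).Nodup
  wpos : ∀ e ∈ E, 0 < e.w
  rnn : ∀ e ∈ E, 0 ≤ e.r

section Dispatch

variable {M : Type} [Finite M] [Nonempty M] [DecidableEq M]

/-- the queue with the least cost -/
noncomputable def pick (v : M → ℝ) (w : M → Task → ℝ) (τ : Task) (E : M → List Ev) : M :=
  (Finite.exists_min (fun j => cost (v j) (w j τ) (qs (v j) (E j) τ.arr))).choose

/-- event lists of the queues after the tasks `R` (latest first) have been dispatched -/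
noncomputable def hist (v : M → ℝ) (w : M → Task → ℝ) : List Task → M → List Ev
  | [] => fun _ => []
  | τ :: R => Function.update (hist v w R) (pick v w τ (hist v w R))
      (⟨R.length, τ.arr, w (pick v w τ (hist v w R)) τ⟩ ::
        hist v w R (pick v w τ (hist v w R)))

/-- the queue to which the task number `i` of `L` is sent -/
noncomputable def mu (v : M → ℝ) (w : M → Task → ℝ) (L : List Task) (i : ℕ) (h : i < L.length) :
    M := pick v w L[i] (hist v w (L.take i).reverse)

/-- its cost -/
noncomputable def alpha (v : M → ℝ) (w : M → Task → ℝ) (L : List Task) (i : ℕ)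
    (h : i < L.length) : ℝ :=
  cost (v (mu v w L i h)) (w (mu v w L i h) L[i])
    (qs (v (mu v w L i h)) (hist v w (L.take i).reverse (mu v w L i h)) (L[i]).arr)

end Dispatch

end Pool.Agent.R196.SP
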