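import Pool.Agent.R196.SP.Pieces

/-!
# SP2 : queue states
-/

set_option autoImplicit false

namespace Pool.Agent.R196.SP

theorem GoodE.tail {e : Ev} {E : List Ev} (h : GoodE (e :: E)) : GoodE E :=
  ⟨(List.pairwise_cons.1 h.sorted).2, (List.nodup_cons.1 (by simpa using h.nodup)).2,
    fun x hx => h.wpos x (List.mem_cons_of_mem _ hx),
    fun x hx => h.rnn x (List.mem_cons_of_mem _ hx)⟩

theorem SQ_nil : SQ [] := ⟨List.Pairwise.nil, by simp⟩

theorem qs_ids_mem (h1 : P1) (v : ℝ) : ∀ (E : List Ev) (t : ℝ) (i : ℕ),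
    i ∈ ids (qs v E t) → ∃ e ∈ E, e.id = i ∧ e.r ≤ t := by
  obtain ⟨-, -, hins, hsub, -, -, -, -, -⟩ := h1
  intro E
  induction E with
  | nil => intro t i hi; simp [qs, ids] at hi
  | cons e E ih =>
    intro t i hi
    unfold qs at hi
    split_ifs at hi with hlt
    · obtain ⟨e', he', h2, h3⟩ := ih t i hi
      exact ⟨e', List.mem_cons_of_mem _ he', h2, h3⟩
    · have hle : e.r ≤ t := not_lt.1 hlt
      have h2 := (hsub _ _).subset hi
      have h3 := (hins _ _ _).subset h2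
      rcases List.mem_cons.1 h3 with h4 | h4
      · exact ⟨e, List.mem_cons_self, h4.symm, hle⟩
      · obtain ⟨e', he', h5, h6⟩ := ih _ i h4
        exact ⟨e', List.mem_cons_of_mem _ he', h5, h6.trans hle⟩

theorem qs_good (h1 : P1) (v : ℝ) (hv : 0 < v) : ∀ E : List Ev, GoodE E →
    ∀ t, SQ (qs v E t) ∧ (ids (qs v E t)).Nodup := by
  have hmem := qs_ids_mem h1 v
  obtain ⟨hs, hi, hins, hsub, -, -, -, -, -⟩ := h1
  intro E
  induction E with
  | nil => intro _ t; exact ⟨SQ_nil, by simp [qs, ids]⟩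
  | cons e E ih =>
    intro hE t
    unfold qs
    split_ifs with hlt
    · exact ih hE.tail t
    · have hle : e.r ≤ t := not_lt.1 hlt
      obtain ⟨h2, h3⟩ := ih hE.tail e.r
      have hx : 0 ≤ v * (t - e.r) := mul_nonneg hv.le (sub_nonneg.2 hle)
      refine ⟨hs _ _ hx (hi _ _ _ (hE.wpos e List.mem_cons_self) h2), ?_⟩
      refine (hsub _ _).nodup ?_
      rw [(hins _ _ _).nodup_iff, List.nodup_cons]
      refine ⟨fun h4 => ?_, h3⟩
      obtain ⟨e', he', h5, -⟩ := hmem _ _ _ h4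
      have h6 : e.id ∉ E.map Ev.id := (List.nodup_cons.1 (by simpa using hE.nodup)).1
      exact h6 (by rw [← h5]; exact List.mem_map_of_mem he')

theorem qs_G (h1 : P1) (v : ℝ) (hv : 0 < v) : ∀ (E₂ E₁ : List Ev) (T t w : ℝ),
    GoodE (E₂ ++ E₁) → (∀ e ∈ E₁, e.r ≤ T) →
    (∀ e ∈ E₂, T ≤ e.r) → T ≤ t → 0 ≤ w →
    G w (qs v E₁ T) ≤ G w (qs v (E₂ ++ E₁) t) + v * (t - T) := by
  have hgood := qs_good h1 v hv
  obtain ⟨hs, hi, hins, hsub, hadd, -, hG, hGi, -⟩ := h1
  intro E₂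
  induction E₂ with
  | nil =>
    intro E₁ T t w hE h₁ _ hT hw
    cases E₁ with
    | nil =>
      have : 0 ≤ v * (t - T) := mul_nonneg hv.le (sub_nonneg.2 hT)
      simpa [qs, G] using this
    | cons e E =>
      have heT : e.r ≤ T := h₁ e List.mem_cons_self
      have het : e.r ≤ t := heT.trans hT
      have hE' : GoodE (e :: E) := by simpa using hE
      have h2 : SQ (ins e.id e.w (qs v E e.r)) :=
        hi _ _ _ (hE'.wpos e List.mem_cons_self) (hgood E hE'.tail e.r).1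
      have hx : 0 ≤ v * (T - e.r) := mul_nonneg hv.le (sub_nonneg.2 heT)
      have hy : 0 ≤ v * (t - T) := mul_nonneg hv.le (sub_nonneg.2 hT)
      have h3 : qs v (e :: E) T = serve (v * (T - e.r)) (ins e.id e.w (qs v E e.r)) := by
        rw [qs, if_neg (not_lt.2 heT)]
      have h4 : qs v ([] ++ (e :: E)) t =
          serve (v * (t - T)) (serve (v * (T - e.r)) (ins e.id e.w (qs v E e.r))) := by
        rw [List.nil_append, qs, if_neg (not_lt.2 het), ← hadd _ _ _ hx hy]
        congr 1; ring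
      rw [h3, h4]
      exact hG _ _ _ hy hw (hs _ _ hx h2)
  | cons e E ih =>
    intro E₁ T t w hE h₁ h₂ hT hw
    have hE' : GoodE (e :: (E ++ E₁)) := by simpa using hE
    have h₂' : ∀ e ∈ E, T ≤ e.r := fun x hx => h₂ x (List.mem_cons_of_mem _ hx)
    have heT : T ≤ e.r := h₂ e List.mem_cons_self
    rw [List.cons_append]
    by_cases hlt : t < e.r
    · have h3 : qs v (e :: (E ++ E₁)) t = qs v (E ++ E₁) t := by
        rw [qs, if_pos hlt]
      rw [h3]
      exact ih E₁ T t w hE'.tail h₁ h₂' hT hw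
    · have het : e.r ≤ t := not_lt.1 hlt
      have h3 : qs v (e :: (E ++ E₁)) t =
          serve (v * (t - e.r)) (ins e.id e.w (qs v (E ++ E₁) e.r)) := by
        rw [qs, if_neg hlt]
      have h4 := ih E₁ T e.r w hE'.tail h₁ h₂' heT hw
      have hwe : 0 < e.w := hE'.wpos e List.mem_cons_self
      have h5 := hGi (qs v (E ++ E₁) e.r) e.id e.w w hwe.le hw
      have hx : 0 ≤ v * (t - e.r) := mul_nonneg hv.le (sub_nonneg.2 het)
      have h6 := hG (ins e.id e.w (qs v (E ++ E₁) e.r)) (v * (t - e.r)) w hx hw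
        (hi _ _ _ hwe (hgood _ hE'.tail e.r).1)
      rw [h3]
      have h7 : v * (t - T) = v * (t - e.r) + v * (e.r - T) := by ring
      linarith

/-- SP2. -/
theorem p2 (h1 : P1) : P2 := fun v hv =>
  ⟨qs_good h1 v hv, qs_ids_mem h1 v, qs_G h1 v hv⟩

end Pool.Agent.R196.SP
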