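import Pool.Agent.R196.SP.Pieces

/-!
# SP-P4 (helper359): every job receives its work
-/

set_option autoImplicit false
set_option linter.unusedVariables false

open MeasureTheory

namespace Pool.Agent.R196.SP

namespace Q4

lemma ids_cons (j : ℕ) (r : ℝ) (Q : Queue) : ids ((j, r) :: Q) = j :: ids Q := rfl

lemma hd_cons (j : ℕ) (r : ℝ) (Q : Queue) : hd ((j, r) :: Q) = some j := rfl

lemma serve_lt {x : ℝ} {j : ℕ} {r : ℝ} {Q : Queue} (h : x < r) :
    serve x ((j, r) :: Q) = (j, r - x) :: Q := by
  rw [serve, if_pos h]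

lemma serve_ge {x : ℝ} {j : ℕ} {r : ℝ} {Q : Queue} (h : ¬ x < r) :
    serve x ((j, r) :: Q) = serve (x - r) Q := by
  rw [serve, if_neg h]

lemma meas_serve (i : ℕ) (Q : Queue) : MeasurableSet {x : ℝ | hd (serve x Q) = some i} := by
  induction Q with
  | nil =>
    have : {x : ℝ | hd (serve x []) = some i} = ∅ := by
      ext x
      simp [serve, hd, ids]
    rw [this]
    exact MeasurableSet.empty
  | cons q Q ih =>
    obtain ⟨j, r⟩ := q
    have : {x : ℝ | hd (serve x ((j, r) :: Q)) = some i} =
        (Set.Iio r ∩ {x | j = i}) ∪ (Set.Ici r ∩ (fun x => x - r) ⁻¹' {x | hd (serve x Q) = some i}) := by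
      ext x
      by_cases hx : x < r
      · have : hd (serve x ((j, r) :: Q)) = some j := by rw [serve_lt hx, hd_cons]
        simp [this, hx]
      · simp [serve_ge hx, hx, not_lt.mp hx]
    rw [this]
    refine (measurableSet_Iio.inter (MeasurableSet.const _)).union
      (measurableSet_Ici.inter ?_)
    exact (measurable_id.sub_const r) ih

lemma qs_cons (v : ℝ) (e : Ev) (E : List Ev) (t : ℝ) : qs v (e :: E) t =
    if t < e.r then qs v E t else serve (v * (t - e.r)) (ins e.id e.w (qs v E e.r)) := rfl

lemma meas_qs (v : ℝ) (i : ℕ) (E : List Ev) : MeasurableSet {t : ℝ | hd (qs v E t) = some i} := by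
  induction E with
  | nil =>
    have : {t : ℝ | hd (qs v [] t) = some i} = ∅ := by
      ext x
      simp [qs, hd, ids]
    rw [this]
    exact MeasurableSet.empty
  | cons e E ih =>
    have : {t : ℝ | hd (qs v (e :: E) t) = some i} =
        (Set.Iio e.r ∩ {t | hd (qs v E t) = some i}) ∪ (Set.Ici e.r ∩
          (fun t => v * (t - e.r)) ⁻¹' {x | hd (serve x (ins e.id e.w (qs v E e.r))) = some i}) := by
      ext t
      by_cases ht : t < e.r
      · simp [qs_cons, ht]
      · simp [qs_cons, ht, not_lt.mp ht]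
    rw [this]
    refine (measurableSet_Iio.inter ih).union (measurableSet_Ici.inter ?_)
    exact ((measurable_id.sub_const e.r).const_mul v) (meas_serve i _)

/-- indicator of a set of times -/
noncomputable def ind (S : Set ℝ) (t : ℝ) : ℝ := S.indicator (fun _ => (1 : ℝ)) t

lemma ind_int {S : Set ℝ} (hS : MeasurableSet S) (a b : ℝ) :
    IntervalIntegrable (ind S) volume a b := by
  have h : IntervalIntegrable (fun _ : ℝ => (1 : ℝ)) volume a b := intervalIntegrable_const
  exact ⟨h.1.indicator hS, h.2.indicator hS⟩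

lemma congr_open {f g : ℝ → ℝ} {a b : ℝ} (hab : a ≤ b) (h : ∀ t, a ≤ t → t < b → f t = g t) :
    ∫ t in a..b, f t = ∫ t in a..b, g t := by
  refine intervalIntegral.integral_congr_ae ?_
  have h1 : ∀ᵐ t : ℝ, t ≠ b := by
    rw [ae_iff]
    simp
  filter_upwards [h1] with t ht hab'
  rw [Set.uIoc_of_le hab] at hab'
  exact h t hab'.1.le (lt_of_le_of_ne hab'.2 ht)

lemma remQ_not_mem (i : ℕ) (Q : Queue) (h : i ∉ ids Q) : remQ i Q = 0 := by
  induction Q with
  | nil => rfl
  | cons q Q ih =>
    obtain ⟨j, r⟩ := q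
    rw [ids_cons, List.mem_cons, not_or] at h
    rw [remQ, if_neg (fun h' => h.1 h'.symm), ih h.2]

lemma remQ_ins_self (i : ℕ) (w : ℝ) (Q : Queue) (h : i ∉ ids Q) : remQ i (ins i w Q) = w := by
  induction Q with
  | nil => simp [ins, remQ]
  | cons q Q ih =>
    obtain ⟨j, r⟩ := q
    rw [ids_cons, List.mem_cons, not_or] at h
    rw [ins]
    split_ifs
    · simp [remQ]
    · rw [remQ, if_neg (fun h' => h.1 h'.symm), ih h.2]

lemma remQ_ins_ne (i j : ℕ) (w : ℝ) (Q : Queue) (h : j ≠ i) :
    remQ i (ins j w Q) = remQ i Q := by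
  induction Q with
  | nil => simp [ins, remQ, h]
  | cons q Q ih =>
    obtain ⟨k, r⟩ := q
    rw [ins]
    split_ifs
    · rw [remQ, if_neg h]
    · rw [remQ, remQ, ih]

/-- Lemma A -/
lemma lemA (hsub : ∀ (Q : Queue) (x : ℝ), (ids (serve x Q)).Sublist (ids Q)) (i : ℕ)
    (Q : Queue) (hpos : ∀ q ∈ Q, 0 < q.2) (hnd : (ids Q).Nodup) (x : ℝ) (hx : 0 ≤ x) :
    ∫ y in (0:ℝ)..x, ind {y | hd (serve y Q) = some i} y = remQ i Q - remQ i (serve x Q) := by
  induction Q generalizing x with
  | nil =>
    have : ∀ y : ℝ, ind {y | hd (serve y []) = some i} y = 0 := by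
      intro y
      rw [ind, Set.indicator_of_notMem]
      simp [serve, hd, ids]
    simp only [this]
    simp [serve, remQ]
  | cons q Q ih =>
    obtain ⟨j, r⟩ := q
    have hr : 0 < r := hpos (j, r) List.mem_cons_self
    have hpos' : ∀ q ∈ Q, 0 < q.2 := fun q hq => hpos q (List.mem_cons_of_mem _ hq)
    rw [ids_cons, List.nodup_cons] at hnd
    have hlow : ∀ y, y < r → ind {y | hd (serve y ((j, r) :: Q)) = some i} y =
        if j = i then 1 else 0 := by
      intro y hy
      have h1 : hd (serve y ((j, r) :: Q)) = some j := by rw [serve_lt hy, hd_cons]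
      rw [ind]
      split_ifs with hji
      · rw [Set.indicator_of_mem]
        show hd (serve y ((j, r) :: Q)) = some i
        rw [h1, hji]
      · rw [Set.indicator_of_notMem]
        show ¬ hd (serve y ((j, r) :: Q)) = some i
        rw [h1]
        simpa using hji
    by_cases hxr : x < r
    · have h1 : ∫ y in (0:ℝ)..x, ind {y | hd (serve y ((j, r) :: Q)) = some i} y =
          ∫ y in (0:ℝ)..x, (if j = i then (1:ℝ) else 0) :=
        congr_open hx fun y _ hy => hlow y (hy.trans hxr)
      rw [h1, intervalIntegral.integral_const, serve_lt hxr, remQ, remQ]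
      split_ifs <;> simp
    · have hrx : r ≤ x := not_lt.mp hxr
      rw [← intervalIntegral.integral_add_adjacent_intervals
        (ind_int (meas_serve i _) 0 r) (ind_int (meas_serve i _) r x)]
      have h1 : ∫ y in (0:ℝ)..r, ind {y | hd (serve y ((j, r) :: Q)) = some i} y =
          ∫ y in (0:ℝ)..r, (if j = i then (1:ℝ) else 0) :=
        congr_open hr.le fun y _ hy => hlow y hy
      have h2 : ∫ y in r..x, ind {y | hd (serve y ((j, r) :: Q)) = some i} y =
          ∫ y in r..x, ind {y | hd (serve y Q) = some i} (y - r) := by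
        refine congr_open hrx fun y hy _ => ?_
        have : hd (serve y ((j, r) :: Q)) = hd (serve (y - r) Q) := by
          rw [serve_ge (not_lt.mpr hy)]
        rw [ind, ind, Set.indicator_apply, Set.indicator_apply]
        simp only [Set.mem_ofPred_eq, this]
      rw [h1, h2, intervalIntegral.integral_comp_sub_right
        (fun y => ind {y | hd (serve y Q) = some i} y) r, sub_self,
        ih hpos' hnd.2 (x - r) (by linarith), intervalIntegral.integral_const, serve_ge hxr, remQ]
      split_ifs with hji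
      · subst hji
        have h3 : j ∉ ids (serve (x - r) Q) := fun h => hnd.1 ((hsub Q (x - r)).subset h)
        rw [remQ_not_mem j Q hnd.1, remQ_not_mem j _ h3]
        simp
      · simp

/-- Lemma B -/
lemma lemB (h1 : P1) (h2 : P2) (v : ℝ) (hv : 0 < v) (E : List Ev) (hE : GoodE E) (e : Ev)
    (he : e ∈ E) (T : ℝ) (hT : e.r ≤ T) :
    v * ∫ t in e.r..T, ind {t | hd (qs v E t) = some e.id} t = e.w - remQ e.id (qs v E T) := by
  obtain ⟨_, hinsSQ, hperm, hsub, _⟩ := h1
  obtain ⟨hSQ, hids, _⟩ := h2 v hv
  induction E generalizing T with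
  | nil => simp at he
  | cons e0 E ih =>
    have hE' : GoodE E := ⟨hE.sorted.of_cons, (List.nodup_cons.mp hE.nodup).2,
      fun e he => hE.wpos e (List.mem_cons_of_mem _ he),
      fun e he => hE.rnn e (List.mem_cons_of_mem _ he)⟩
    set Q := ins e0.id e0.w (qs v E e0.r) with hQ
    obtain ⟨hS, hN⟩ := hSQ E hE' e0.r
    have hnot : e0.id ∉ ids (qs v E e0.r) := by
      intro h
      obtain ⟨e', he', hid, _⟩ := hids E e0.r e0.id h
      have := (List.nodup_cons.mp hE.nodup).1
      exact this (hid ▸ List.mem_map_of_mem he')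
    have hQS : SQ Q := hinsSQ _ _ _ (hE.wpos e0 List.mem_cons_self) hS
    have hQN : (ids Q).Nodup := (hperm _ _ _).nodup_iff.mpr (List.nodup_cons.mpr ⟨hnot, hN⟩)
    -- after the arrival of `e0`
    have hafter : ∀ (i : ℕ) (T : ℝ), e0.r ≤ T →
        v * ∫ t in e0.r..T, ind {t | hd (qs v (e0 :: E) t) = some i} t =
          remQ i Q - remQ i (qs v (e0 :: E) T) := by
      intro i T hT
      have h3 : ∫ t in e0.r..T, ind {t | hd (qs v (e0 :: E) t) = some i} t =
          ∫ t in e0.r..T, ind {y | hd (serve y Q) = some i} (v * t - v * e0.r) := by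
        refine congr_open hT fun t ht _ => ?_
        have : hd (qs v (e0 :: E) t) = hd (serve (v * t - v * e0.r) Q) := by
          rw [qs_cons, if_neg (not_lt.mpr ht), mul_sub]
        rw [ind, ind, Set.indicator_apply, Set.indicator_apply]
        simp only [Set.mem_ofPred_eq, this]
      rw [h3, ← smul_eq_mul, intervalIntegral.smul_integral_comp_mul_sub, sub_self,
        show v * T - v * e0.r = v * (T - e0.r) by ring,
        lemA hsub i Q hQS.2 hQN _ (mul_nonneg hv.le (by linarith)), qs_cons,
        if_neg (not_lt.mpr hT)]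
    rcases List.mem_cons.mp he with rfl | he'
    · rw [hafter e.id T hT, hQ, remQ_ins_self _ _ _ hnot]
    · have hne : e0.id ≠ e.id := by
        intro h
        exact (List.nodup_cons.mp hE.nodup).1 (h ▸ List.mem_map_of_mem he')
      have hle : e.r ≤ e0.r := (List.pairwise_cons.mp hE.sorted).1 e he'
      have hbefore : ∀ T, e.r ≤ T → T ≤ e0.r →
          v * ∫ t in e.r..T, ind {t | hd (qs v (e0 :: E) t) = some e.id} t =
            e.w - remQ e.id (qs v E T) := by
        intro T hT hT0
        rw [← ih hE' he' T hT]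
        congr 1
        refine congr_open hT fun t _ ht => ?_
        have : hd (qs v (e0 :: E) t) = hd (qs v E t) := by
          rw [qs_cons, if_pos (lt_of_lt_of_le ht hT0)]
        rw [ind, ind, Set.indicator_apply, Set.indicator_apply]
        simp only [Set.mem_ofPred_eq, this]
      by_cases hTe : T < e0.r
      · rw [hbefore T hT hTe.le, qs_cons, if_pos hTe]
      · have hTe' := not_lt.mp hTe
        rw [← intervalIntegral.integral_add_adjacent_intervals
          (ind_int (meas_qs v e.id _) e.r e0.r) (ind_int (meas_qs v e.id _) e0.r T), mul_add,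
          hbefore e0.r hle le_rfl, hafter e.id T hTe', hQ, remQ_ins_ne _ _ _ _ hne]
        ring

end Q4

open Q4 in
theorem p4 (h1 : P1) (h2 : P2) (h3 : P3) : P4 := by
  intro v hv E hE
  refine ⟨fun i => meas_qs v i E, fun e he => ?_⟩
  obtain ⟨hmem, hlt, _⟩ := h3 v hv E hE
  have h4 := lemB h1 h2 v hv E hE e he (comp v e.id E) (hlt e he).le
  have h5 : e.id ∉ ids (qs v E (comp v e.id E)) := by
    rw [hmem e he]
    rintro ⟨_, h⟩
    exact lt_irrefl _ h
  rw [remQ_not_mem _ _ h5, sub_zero] at h4
  exact h4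

end Pool.Agent.R196.SP
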