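import Pool.Agent.R196.SP.Pieces

/-!
# SP-P7: structure of the event lists
-/

set_option autoImplicit false

open MeasureTheory

namespace Pool.Agent.R196.SP

namespace P7aux

variable {M : Type} [Finite M] [Nonempty M] [DecidableEq M]

lemma hist_append (v : M → ℝ) (w : M → Task → ℝ) (L : List Task) (τ : Task) :
    hist v w (L ++ [τ]).reverse =
      Function.update (hist v w L.reverse) (pick v w τ (hist v w L.reverse))
        (⟨L.length, τ.arr, w (pick v w τ (hist v w L.reverse)) τ⟩ ::
          hist v w L.reverse (pick v w τ (hist v w L.reverse))) := by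
  rw [List.reverse_append, List.reverse_singleton, List.singleton_append]
  rw [hist, List.length_reverse]

lemma mu_append_lt (v : M → ℝ) (w : M → Task → ℝ) (L : List Task) (τ : Task) (i : ℕ)
    (h' : i < L.length) (h : i < (L ++ [τ]).length) :
    mu v w (L ++ [τ]) i h = mu v w L i h' := by
  unfold mu
  rw [List.getElem_append_left h', List.take_append_of_le_length h'.le]

lemma mu_append_last (v : M → ℝ) (w : M → Task → ℝ) (L : List Task) (τ : Task)
    (h : L.length < (L ++ [τ]).length) :
    mu v w (L ++ [τ]) L.length h = pick v w τ (hist v w L.reverse) := by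
  unfold mu
  rw [List.getElem_concat_length rfl, List.take_append_of_le_length le_rfl, List.take_length]

lemma hist_cases (v : M → ℝ) (w : M → Task → ℝ) (L : List Task) (τ : Task) (j : M) :
    (j = pick v w τ (hist v w L.reverse) ∧
      hist v w (L ++ [τ]).reverse j = ⟨L.length, τ.arr, w j τ⟩ :: hist v w L.reverse j) ∨
    (j ≠ pick v w τ (hist v w L.reverse) ∧
      hist v w (L ++ [τ]).reverse j = hist v w L.reverse j) := by
  by_cases hj : j = pick v w τ (hist v w L.reverse)
  · left
    refine ⟨hj, ?_⟩
    rw [hist_append, hj, Function.update_self]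
  · right
    refine ⟨hj, ?_⟩
    rw [hist_append, Function.update_of_ne hj]

lemma part3 (v : M → ℝ) (w : M → Task → ℝ) (L : List Task) :
    ∀ j, ∀ e ∈ hist v w L.reverse j, ∃ h : e.id < L.length,
      j = mu v w L e.id h ∧ e.r = (L[e.id]).arr ∧ e.w = w j L[e.id] := by
  induction L using List.reverseRecOn with
  | nil =>
    intro j e he
    simp [hist] at he
  | append_singleton L τ ih =>
    intro j e he
    have old : e ∈ hist v w L.reverse j → ∃ h : e.id < (L ++ [τ]).length,
        j = mu v w (L ++ [τ]) e.id h ∧ e.r = ((L ++ [τ])[e.id]).arr ∧
          e.w = w j (L ++ [τ])[e.id] := by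
      intro he
      obtain ⟨h, h1, h2, h3⟩ := ih j e he
      have h' : e.id < (L ++ [τ]).length := by
        rw [List.length_append]
        omega
      refine ⟨h', ?_, ?_, ?_⟩
      · rw [mu_append_lt v w L τ e.id h h']
        exact h1
      · rw [List.getElem_append_left h]
        exact h2
      · rw [List.getElem_append_left h]
        exact h3
    rcases hist_cases v w L τ j with ⟨hj, hh⟩ | ⟨hj, hh⟩
    · rw [hh, List.mem_cons] at he
      rcases he with he | he
      · have h' : L.length < (L ++ [τ]).length := by simp
        subst he
        refine ⟨h', ?_, ?_, ?_⟩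
        · change j = mu v w (L ++ [τ]) L.length h'
          rw [mu_append_last]
          exact hj
        · change τ.arr = ((L ++ [τ])[L.length]).arr
          rw [List.getElem_concat_length rfl]
        · change w j τ = w j (L ++ [τ])[L.length]
          rw [List.getElem_concat_length rfl]
      · exact old he
    · rw [hh] at he
      exact old he

lemma part2 (v : M → ℝ) (w : M → Task → ℝ) (L : List Task) :
    ∀ (i : ℕ) (h : i < L.length), (⟨i, (L[i]).arr, w (mu v w L i h) L[i]⟩ : Ev) ∈
      hist v w L.reverse (mu v w L i h) := by
  induction L using List.reverseRecOn with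
  | nil =>
    intro i h
    simp at h
  | append_singleton L τ ih =>
    intro i h
    by_cases hi : i < L.length
    · rw [mu_append_lt v w L τ i hi h, List.getElem_append_left hi]
      rcases hist_cases v w L τ (mu v w L i hi) with ⟨_, hh⟩ | ⟨_, hh⟩
      · rw [hh]
        exact List.mem_cons_of_mem _ (ih i hi)
      · rw [hh]
        exact ih i hi
    · have hi' : i = L.length := by
        rw [List.length_append, List.length_singleton] at h
        omega
      subst hi'
      rw [mu_append_last, List.getElem_concat_length rfl]
      rcases hist_cases v w L τ (pick v w τ (hist v w L.reverse)) with ⟨_, hh⟩ | ⟨hj, _⟩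
      · rw [hh]
        exact List.mem_cons_self
      · exact absurd rfl hj

lemma part1 (v : M → ℝ) (w : M → Task → ℝ) (L : List Task) (hL : Valid L)
    (hw : ∀ j, ∀ τ ∈ L, 0 < w j τ) : ∀ j, GoodE (hist v w L.reverse j) := by
  induction L using List.reverseRecOn with
  | nil =>
    intro j
    constructor <;> simp [hist]
  | append_singleton L τ ih =>
    have hsort := List.pairwise_append.mp hL.sorted
    have hL' : Valid L := by
      refine ⟨fun σ hσ => hL.arr_nonneg σ (List.mem_append_left _ hσ),
        fun σ hσ => hL.ser_pos σ (List.mem_append_left _ hσ),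
        fun σ hσ => hL.ser_lt σ (List.mem_append_left _ hσ), hsort.1⟩
    have ih' := ih hL' fun j σ hσ => hw j σ (List.mem_append_left _ hσ)
    intro j
    rcases hist_cases v w L τ j with ⟨hj, hh⟩ | ⟨hj, hh⟩
    · rw [hh]
      have g := ih' j
      have key := part3 v w L j
      constructor
      · rw [List.pairwise_cons]
        refine ⟨?_, g.sorted⟩
        intro e he
        obtain ⟨h, _, h2, _⟩ := key e he
        change e.r ≤ τ.arr
        rw [h2]
        exact hsort.2.2 _ (List.getElem_mem h) τ (List.mem_singleton.mpr rfl)
      · rw [List.map_cons, List.nodup_cons]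
        refine ⟨?_, g.nodup⟩
        intro hmem
        obtain ⟨e, he, he2⟩ := List.mem_map.mp hmem
        obtain ⟨h, _⟩ := key e he
        change e.id = L.length at he2
        omega
      · intro e he
        rcases List.mem_cons.mp he with he | he
        · rw [he]
          exact hw j τ (List.mem_append_right _ (List.mem_singleton.mpr rfl))
        · exact g.wpos e he
      · intro e he
        rcases List.mem_cons.mp he with he | he
        · rw [he]
          exact hL.arr_nonneg τ (List.mem_append_right _ (List.mem_singleton.mpr rfl))
        · exact g.rnn e he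
    · rw [hh]
      exact ih' j

/-- the summands of part 4 as a function on all natural numbers -/
noncomputable def term (v : M → ℝ) (w : M → Task → ℝ) (L : List Task) (j : M) (f : Ev → ℝ)
    (i : ℕ) : ℝ :=
  if h : i < L.length then
    (if mu v w L i h = j then f ⟨i, (L[i]).arr, w (mu v w L i h) L[i]⟩ else 0) else 0

lemma sum_term (v : M → ℝ) (w : M → Task → ℝ) (L : List Task) (j : M) (f : Ev → ℝ) :
    (∑ i : Fin L.length, if mu v w L i i.2 = j then
      f ⟨i, (L[i]).arr, w (mu v w L i i.2) L[i]⟩ else 0) =
    ∑ i ∈ Finset.range L.length, term v w L j f i := by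
  rw [Finset.sum_range]
  apply Finset.sum_congr rfl
  intro i _
  unfold term
  rw [dif_pos i.2]
  rfl

lemma part4 (v : M → ℝ) (w : M → Task → ℝ) (L : List Task) :
    ∀ (j : M) (f : Ev → ℝ), ((hist v w L.reverse j).map f).sum =
      ∑ i : Fin L.length, if mu v w L i i.2 = j then
        f ⟨i, (L[i]).arr, w (mu v w L i i.2) L[i]⟩ else 0 := by
  intro j f
  rw [sum_term]
  induction L using List.reverseRecOn with
  | nil => simp [hist]
  | append_singleton L τ ih =>
    rw [List.length_append, List.length_singleton, Finset.sum_range_succ]
    have h1 : ∀ i ∈ Finset.range L.length, term v w (L ++ [τ]) j f i = term v w L j f i := by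
      intro i hi
      have hi' := Finset.mem_range.mp hi
      have h' : i < (L ++ [τ]).length := by
        rw [List.length_append]
        omega
      unfold term
      rw [dif_pos hi', dif_pos h', mu_append_lt v w L τ i hi' h', List.getElem_append_left hi']
    rw [Finset.sum_congr rfl h1, ← ih]
    have h' : L.length < (L ++ [τ]).length := by simp
    have h2 : term v w (L ++ [τ]) j f L.length =
        if pick v w τ (hist v w L.reverse) = j then
          f ⟨L.length, τ.arr, w (pick v w τ (hist v w L.reverse)) τ⟩ else 0 := by
      unfold term
      rw [dif_pos h', mu_append_last, List.getElem_concat_length rfl]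
    rw [h2]
    rcases hist_cases v w L τ j with ⟨hj, hh⟩ | ⟨hj, hh⟩
    · rw [hh, List.map_cons, List.sum_cons, if_pos hj.symm, ← hj, add_comm]
    · rw [hh, if_neg (Ne.symm hj), add_zero]

lemma part5 (v : M → ℝ) (w : M → Task → ℝ) (L : List Task)
    (hL : L.Pairwise (fun a b => a.arr ≤ b.arr)) : ∀ (j : M) (t : ℝ),
    qs (v j) (hist v w (arrived L t).reverse j) t = qs (v j) (hist v w L.reverse j) t := by
  intro j t
  induction L using List.reverseRecOn with
  | nil => rfl
  | append_singleton L τ ih =>
    have hsort := List.pairwise_append.mp hL
    by_cases ht : τ.arr ≤ t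
    · have h1 : arrived (L ++ [τ]) t = L ++ [τ] := by
        unfold arrived
        rw [List.filter_eq_self]
        intro σ hσ
        rw [decide_eq_true_eq]
        rcases List.mem_append.mp hσ with hσ | hσ
        · exact (hsort.2.2 σ hσ τ (List.mem_singleton.mpr rfl)).trans ht
        · rw [List.mem_singleton.mp hσ]
          exact ht
      rw [h1]
    · have h1 : arrived (L ++ [τ]) t = arrived L t := by
        unfold arrived
        rw [List.filter_append]
        have : List.filter (fun σ : Task => decide (σ.arr ≤ t)) [τ] = [] := by
          rw [List.filter_eq_nil_iff]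
          intro σ hσ
          rw [List.mem_singleton.mp hσ, decide_eq_true_eq]
          exact ht
        rw [this, List.append_nil]
      rw [h1, ih hsort.1]
      rcases hist_cases v w L τ j with ⟨hj, hh⟩ | ⟨hj, hh⟩
      · rw [hh]
        have h2 : t < (⟨L.length, τ.arr, w j τ⟩ : Ev).r := not_le.mp ht
        conv_rhs => rw [qs, if_pos h2]
      · rw [hh]

end P7aux

open P7aux

theorem p7 : P7 := by
  intro M _ _ _ v w hv L hL hw
  exact ⟨part1 v w L hL hw, part2 v w L, part3 v w L, part4 v w L, part5 v w L hL.sorted⟩

end Pool.Agent.R196.SP
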