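import Pool.Agent.R196.SP.Pieces

/-!
# SP8: the costs
-/

set_option autoImplicit false

open MeasureTheory

namespace Pool.Agent.R196.SP

namespace P8Aux

variable {M : Type} [Finite M] [Nonempty M] [DecidableEq M] (v : M → ℝ) (w : M → Task → ℝ)

theorem hist_append (X R : List Task) (j : M) : ∃ E₂ : List Ev,
    hist v w (X ++ R) j = E₂ ++ hist v w R j ∧ ∀ e ∈ E₂, ∃ τ ∈ X, e.r = τ.arr := by
  induction X with
  | nil => exact ⟨[], rfl, by simp⟩
  | cons x X ih =>
    obtain ⟨E₂, h1, h2⟩ := ih
    rw [List.cons_append, hist]
    by_cases hj : j = pick v w x (hist v w (X ++ R))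
    · refine ⟨⟨(X ++ R).length, x.arr, w (pick v w x (hist v w (X ++ R))) x⟩ :: E₂, ?_, ?_⟩
      · rw [← hj, Function.update_self, h1, List.cons_append]
      · intro e he
        rcases List.mem_cons.mp he with rfl | he
        · exact ⟨x, by simp, rfl⟩
        · obtain ⟨τ, hτ, hr⟩ := h2 e he
          exact ⟨τ, by simp [hτ], hr⟩
    · refine ⟨E₂, ?_, ?_⟩
      · rw [Function.update_of_ne hj, h1]
      · intro e he
        obtain ⟨τ, hτ, hr⟩ := h2 e he
        exact ⟨τ, by simp [hτ], hr⟩

theorem mem_hist (X : List Task) (j : M) : ∀ e ∈ hist v w X j, ∃ τ ∈ X, e.r = τ.arr := by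
  obtain ⟨E₂, h1, h2⟩ := hist_append v w X [] j
  rw [List.append_nil] at h1
  have h3 : hist v w ([] : List Task) j = [] := rfl
  rw [h3, List.append_nil] at h1
  rw [h1]
  exact h2

omit [DecidableEq M] in
theorem pick_le (τ : Task) (E : M → List Ev) (j : M) :
    cost (v (pick v w τ E)) (w (pick v w τ E) τ) (qs (v (pick v w τ E)) (E (pick v w τ E)) τ.arr) ≤
      cost (v j) (w j τ) (qs (v j) (E j) τ.arr) :=
  (Finite.exists_min (fun j => cost (v j) (w j τ) (qs (v j) (E j) τ.arr))).choose_spec j

end P8Aux

open P8Aux in
theorem p8 (h1 : P1) (h2 : P2) (h7 : P7) : P8 := by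
  intro M _ _ _ v w hv L hL hw
  obtain ⟨hgood, -, -, -, -⟩ := h7 M v w hv L hL hw
  constructor
  · have key : ∀ k, k ≤ L.length → ∑ j, tcost (v j) (hist v w (L.take k).reverse j) =
        ∑ i ∈ Finset.range k, if h : i < L.length then alpha v w L i h else 0 := by
      intro k
      induction k with
      | zero => intro _; simp [hist, tcost]
      | succ k ih =>
        intro hk
        have hk' : k < L.length := by omega
        rw [Finset.sum_range_succ, ← ih (by omega), dif_pos hk']
        have e1 : (L.take (k + 1)).reverse = L[k] :: (L.take k).reverse := by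
          rw [List.take_succ_eq_append_getElem hk', List.reverse_append]
          rfl
        rw [e1]
        have e2 : ∀ j, tcost (v j) (hist v w (L[k] :: (L.take k).reverse) j) =
            tcost (v j) (hist v w (L.take k).reverse j) +
              if j = mu v w L k hk' then alpha v w L k hk' else 0 := by
          intro j
          rw [hist]
          by_cases hj : j = mu v w L k hk'
          · rw [if_pos hj]
            have hj' : j = pick v w L[k] (hist v w (L.take k).reverse) := hj
            subst hj
            rw [show mu v w L k hk' = pick v w L[k] (hist v w (L.take k).reverse) from rfl,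
              Function.update_self, tcost]
            rfl
          · have hj' : j ≠ pick v w L[k] (hist v w (L.take k).reverse) := hj
            rw [if_neg hj, add_zero, Function.update_of_ne hj']
        rw [Finset.sum_congr rfl fun j _ => e2 j, Finset.sum_add_distrib, Finset.sum_ite_eq']
        simp
    have h3 := key L.length le_rfl
    rw [List.take_length] at h3
    rw [h3, Finset.sum_range]
    refine Finset.sum_congr rfl fun i _ => ?_
    rw [dif_pos i.2]
  · intro i h j t ht
    have hvj := hv j
    have hwj : 0 < w j L[i] := hw j _ (List.getElem_mem h)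
    have ha := pick_le v w L[i] (hist v w (L.take i).reverse) j
    have ha' : alpha v w L i h ≤
        cost (v j) (w j L[i]) (qs (v j) (hist v w (L.take i).reverse j) (L[i]).arr) := ha
    -- splitting of the history
    have hsplit : L.reverse = (L.drop i).reverse ++ (L.take i).reverse := by
      rw [← List.reverse_append, List.take_append_drop]
    obtain ⟨E₂, e1, e2⟩ := hist_append v w (L.drop i).reverse (L.take i).reverse j
    rw [← hsplit] at e1
    have hs := hL.sorted
    have hdrop : L.drop i = L[i] :: L.drop (i + 1) := List.drop_eq_getElem_cons h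
    have hs2 : ∀ a ∈ L.take i, ∀ b ∈ L.drop i, a.arr ≤ b.arr := by
      have h4 := hs
      rw [← List.take_append_drop i L, List.pairwise_append] at h4
      exact h4.2.2
    have hmem : L[i] ∈ L.drop i := by rw [hdrop]; exact List.mem_cons_self
    have hs3 : ∀ b ∈ L.drop i, (L[i]).arr ≤ b.arr := by
      have h4 : (L.drop i).Pairwise (fun a b => a.arr ≤ b.arr) := hs.sublist (List.drop_sublist i L)
      rw [hdrop, List.pairwise_cons] at h4
      intro b hb
      rw [hdrop] at hb
      rcases List.mem_cons.mp hb with rfl | hb
      · exact le_rfl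
      · exact h4.1 b hb
    have hE₁ : ∀ e ∈ hist v w (L.take i).reverse j, e.r ≤ (L[i]).arr := by
      intro e he
      obtain ⟨τ, hτ, hr⟩ := mem_hist v w _ j e he
      rw [hr]
      exact hs2 τ (List.mem_reverse.mp hτ) _ hmem
    have hE₂ : ∀ e ∈ E₂, (L[i]).arr ≤ e.r := by
      intro e he
      obtain ⟨τ, hτ, hr⟩ := e2 e he
      rw [hr]
      exact hs3 τ (List.mem_reverse.mp hτ)
    have hg : GoodE (E₂ ++ hist v w (L.take i).reverse j) := by
      rw [← e1]; exact hgood j
    have hG := (h2 (v j) hvj).2.2 E₂ (hist v w (L.take i).reverse j) (L[i]).arr t (w j L[i]) hg hE₁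
      hE₂ ht hwj.le
    rw [← e1] at hG
    have hlen := h1.2.2.2.2.2.2.2.2 (qs (v j) (hist v w L.reverse j) t) (w j L[i])
    refine ha'.trans ?_
    unfold cost
    have h5 : (w j L[i] + G (w j L[i]) (qs (v j) (hist v w (L.take i).reverse j) (L[i]).arr)) / v j ≤
        (w j L[i] + (w j L[i] * (qs (v j) (hist v w L.reverse j) t).length +
          v j * (t - (L[i]).arr))) / v j := by
      apply div_le_div_of_nonneg_right _ hvj.le
      linarith
    refine h5.trans (le_of_eq ?_)
    field_simp
    ring

end Pool.Agent.R196.SP
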