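import Pool.Agent.R196.SP.Pieces

/-!
# Piece P6: weak duality
-/

set_option autoImplicit false

open MeasureTheory

namespace Pool.Agent.R196.SP

namespace PSix

variable {p : ℕ}

lemma load_eq (a : Alloc p) (i : ℕ) (t : ℝ) :
    (load a i t : ℝ) = ∑ k : Fin p, Set.indicator {t | a k t = some i} (fun _ => (1 : ℝ)) t := by
  unfold load
  rw [Finset.card_filter]
  push_cast
  refine Finset.sum_congr rfl fun k _ => ?_
  simp [Set.indicator_apply]

lemma load_meas (a : Alloc p) (i : ℕ) (h : ∀ k : Fin p, MeasurableSet {t | a k t = some i}) :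
    Measurable (fun t => (load a i t : ℝ)) := by
  have : (fun t => (load a i t : ℝ)) =
      fun t => ∑ k : Fin p, Set.indicator {t | a k t = some i} (fun _ => (1 : ℝ)) t :=
    funext (load_eq a i)
  rw [this]
  exact Finset.measurable_sum _ fun k _ => measurable_const.indicator (h k)

lemma load_nonneg (a : Alloc p) (i : ℕ) (t : ℝ) : 0 ≤ (load a i t : ℝ) := Nat.cast_nonneg _

lemma load_le (a : Alloc p) (i : ℕ) (t : ℝ) : (load a i t : ℝ) ≤ p := by
  unfold load
  have h := Finset.card_filter_le (Finset.univ : Finset (Fin p)) (fun k => a k t = some i)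
  rw [Finset.card_univ, Fintype.card_fin] at h
  exact_mod_cast h

lemma sum_load (a : Alloc p) (n : ℕ) (t : ℝ) :
    ∑ i : Fin n, (load a i t : ℝ) ≤ p := by
  simp_rw [load_eq]
  rw [Finset.sum_comm]
  have h : ∀ k : Fin p, ∑ i : Fin n,
      Set.indicator {t | a k t = some (i : ℕ)} (fun _ => (1 : ℝ)) t ≤ 1 := by
    intro k
    by_cases hk : ∃ i : Fin n, a k t = some (i : ℕ)
    · obtain ⟨i, hi⟩ := hk
      rw [Finset.sum_eq_single i]
      · simp [Set.indicator_apply]
        split_ifs <;> norm_num
      · intro j _ hj
        have : ¬ (a k t = some (j : ℕ)) := by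
          rw [hi]
          intro hh
          exact hj (Fin.ext (Option.some.inj hh).symm)
        simp [Set.indicator_apply, this]
      · simp
    · push Not at hk
      rw [Finset.sum_eq_zero]
      · norm_num
      · intro j _
        simp [Set.indicator_apply, hk j]
  calc _ ≤ ∑ k : Fin p, (1 : ℝ) := Finset.sum_le_sum fun k _ => h k
    _ = p := by simp

lemma load_ii (a : Alloc p) (i : ℕ) (h : ∀ k : Fin p, MeasurableSet {t | a k t = some i})
    (x y : ℝ) : IntervalIntegrable (fun t => (load a i t : ℝ)) volume x y := by
  refine (intervalIntegrable_const (c := (p : ℝ))).mono_fun'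
    (load_meas a i h).aestronglyMeasurable ?_
  refine Filter.Eventually.of_forall fun t => ?_
  simp only [Real.norm_eq_abs]
  rw [abs_of_nonneg (load_nonneg a i t)]
  exact load_le a i t

/-- Weak duality for one task. -/
lemma one_task (p : ℕ) (hp : 1 ≤ p) (f lam : ℝ → ℝ) (hf : Measurable f) (r c B W d al : ℝ)
    (h0 : ∀ t, 0 ≤ f t) (hB : ∀ t, f t ≤ B) (hB0 : 0 < B)
    (hlam : Integrable lam) (hlam0 : ∀ t, 0 ≤ lam t)
    (hW : 0 < W) (hrc : r ≤ c) (hd : d * B = W)
    (hdone : W ≤ ∫ t in r..c, f t)
    (hal : ∀ t, r ≤ t → al ≤ (t - r) + d + W * lam t) :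
    al ≤ 2 * (c - r) + ∫ t, f t * lam t := by
  have hii : ∀ x y, IntervalIntegrable f volume x y := by
    intro x y
    refine (intervalIntegrable_const (c := B)).mono_fun' hf.aestronglyMeasurable ?_
    refine Filter.Eventually.of_forall fun t => ?_
    simp only [Real.norm_eq_abs]
    rw [abs_of_nonneg (h0 t)]
    exact hB t
  have hcont : ContinuousOn (fun x => ∫ t in r..x, f t) (Set.Icc r c) :=
    (intervalIntegral.continuous_primitive hii r).continuousOn
  have hmem : W ∈ Set.Icc (∫ t in r..r, f t) (∫ t in r..c, f t) := by
    simp [hW.le, hdone]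
  obtain ⟨T, hT, hTW⟩ := intermediate_value_Icc hrc hcont hmem
  simp only at hTW
  obtain ⟨hrT, hTc⟩ := hT
  -- d ≤ T - r
  have hdT : d ≤ T - r := by
    have h1 : ∫ t in r..T, f t ≤ ∫ t in r..T, B :=
      intervalIntegral.integral_mono_on hrT (hii r T) intervalIntegrable_const (fun t _ => hB t)
    rw [hTW, intervalIntegral.integral_const, smul_eq_mul, ← hd] at h1
    exact le_of_mul_le_mul_right h1 hB0
  have hfl : Integrable (fun t => f t * lam t) := by
    refine hlam.bdd_mul (c := B) hf.aestronglyMeasurable (Filter.Eventually.of_forall fun t => ?_)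
    rw [Real.norm_eq_abs, abs_of_nonneg (h0 t)]
    exact hB t
  have hfli : IntervalIntegrable (fun t => f t * lam t) volume r T := hfl.intervalIntegrable
  -- main inequality
  have h2 : ∫ t in r..T, f t * al ≤ ∫ t in r..T, (f t * (T - r + d) + W * (f t * lam t)) := by
    refine intervalIntegral.integral_mono_on hrT ((hii r T).mul_const _)
      (((hii r T).mul_const _).add (hfli.const_mul _)) (fun t ht => ?_)
    have h3 := hal t ht.1
    have h4 : al ≤ (T - r) + d + W * lam t := by linarith [ht.2]
    have h5 := mul_le_mul_of_nonneg_left h4 (h0 t)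
    calc f t * al ≤ f t * ((T - r) + d + W * lam t) := h5
      _ = f t * (T - r + d) + W * (f t * lam t) := by ring
  rw [intervalIntegral.integral_mul_const, hTW, intervalIntegral.integral_add
    ((hii r T).mul_const _) (hfli.const_mul _), intervalIntegral.integral_mul_const, hTW,
    intervalIntegral.integral_const_mul, ← mul_add] at h2
  have h6 : al ≤ T - r + d + ∫ t in r..T, f t * lam t := le_of_mul_le_mul_left h2 hW
  have h7 : ∫ t in r..T, f t * lam t ≤ ∫ t, f t * lam t := by
    rw [intervalIntegral.integral_of_le hrT]
    exact setIntegral_le_integral hfl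
      (Filter.Eventually.of_forall fun t => mul_nonneg (h0 t) (hlam0 t))
  linarith

end PSix

open PSix in
theorem p6 : P6 := by
  intro p hp L hL al C hC h1 h2 c' a' C' hF
  have hp0 : (0 : ℝ) < p := by exact_mod_cast hp
  set N : ℝ → ℝ := fun t =>
    ∑ l : Fin L.length, Set.indicator (Set.Ico (L[l]).arr (C l)) (fun _ => (1 : ℝ)) t with hN
  have hNi : Integrable N := by
    refine integrable_finsetSum _ fun l _ => ?_
    rw [integrable_indicator_iff measurableSet_Ico]
    exact integrableOn_const (by simp)
  have hN0 : ∀ t, 0 ≤ N t := fun t => Finset.sum_nonneg fun l _ =>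
    Set.indicator_nonneg (fun _ _ => zero_le_one) _
  have hNint : ∫ t, N t = resp L C := by
    simp only [hN]
    rw [integral_finsetSum]
    · unfold resp
      refine Finset.sum_congr rfl fun l _ => ?_
      rw [integral_indicator measurableSet_Ico]
      have this : (L[l]).arr ≤ C l := hC l l.2
      simp only [integral_const, MeasurableSet.univ, measureReal_restrict_apply, Set.univ_inter,
        smul_eq_mul, mul_one]
      rw [Real.volume_real_Ico_of_le this]
    · intro l _
      rw [integrable_indicator_iff measurableSet_Ico]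
      exact integrableOn_const (by simp)
  set lam : ℝ → ℝ := fun t => N t / (2 * p) with hlam
  have hlami : Integrable lam := hNi.div_const _
  have hlam0 : ∀ t, 0 ≤ lam t := fun t => div_nonneg (hN0 t) (by positivity)
  have hone : ∀ i : Fin L.length, al i ≤ 2 * (C' i - (L[i]).arr) +
      ∫ t, (load a' i t : ℝ) * lam t := by
    intro i
    have hser := hL.ser_pos L[i] (List.getElem_mem _)
    have hpar := hL.ser_lt L[i] (List.getElem_mem _)
    have hdone := hF.done i i.2
    rw [one_mul] at hdone
    cases hc : c' i
    · -- serial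
      rw [hc] at hdone
      simp only [work, Bool.false_eq_true, if_false] at hdone
      refine one_task p hp (fun t => (load a' i t : ℝ)) lam (load_meas a' i (fun k => hF.meas k i))
        (L[i]).arr (C' i) 1 (L[i]).ser (L[i]).ser (al i) (load_nonneg a' i) (fun t => ?_)
        one_pos hlami hlam0 hser (hF.arr_le i i.2) (mul_one _) hdone (fun t ht => ?_)
      · exact_mod_cast hF.serial i hc t
      · have := h1 i i.2 t ht
        have e : (L[i]).ser * lam t = (L[i]).ser / (2 * p) * N t := by
          simp only [hlam]; ring
        rw [e]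
        exact this
    · -- parallel
      rw [hc] at hdone
      simp only [work, if_true] at hdone
      refine one_task p hp (fun t => (load a' i t : ℝ)) lam (load_meas a' i (fun k => hF.meas k i))
        (L[i]).arr (C' i) p (L[i]).par ((L[i]).par / p) (al i) (load_nonneg a' i) (load_le a' i)
        hp0 hlami hlam0 (hser.trans hpar) (hF.arr_le i i.2) (by field_simp) hdone (fun t ht => ?_)
      have := h2 i i.2 t ht
      have e : (L[i]).par * lam t = (L[i]).par / (2 * p) * N t := by
        simp only [hlam]; ring
      rw [e]
      exact this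
  have hii : ∀ i : Fin L.length, Integrable (fun t => (load a' i t : ℝ) * lam t) := by
    intro i
    refine hlami.bdd_mul (c := (p : ℝ)) (load_meas a' i (fun k => hF.meas k i)).aestronglyMeasurable
      (Filter.Eventually.of_forall fun t => ?_)
    rw [Real.norm_eq_abs, abs_of_nonneg (load_nonneg a' i t)]
    exact load_le a' i t
  calc ∑ i : Fin L.length, al i
      ≤ ∑ i : Fin L.length, (2 * (C' i - (L[i]).arr) + ∫ t, (load a' i t : ℝ) * lam t) :=
        Finset.sum_le_sum fun i _ => hone i
    _ = 2 * resp L C' + ∫ t, ∑ i : Fin L.length, (load a' i t : ℝ) * lam t := by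
        rw [Finset.sum_add_distrib, integral_finsetSum _ (fun i _ => hii i), resp,
          Finset.mul_sum]
    _ ≤ 2 * resp L C' + ∫ t, (1 / 2) * N t := by
        refine add_le_add le_rfl (integral_mono (integrable_finsetSum _ fun i _ => hii i)
          (hNi.const_mul _) (fun t => ?_))
        simp only
        rw [← Finset.sum_mul]
        have e : (1 / 2) * N t = p * lam t := by
          simp only [hlam]; field_simp
        rw [e]
        exact mul_le_mul_of_nonneg_right (sum_load a' L.length t) (hlam0 t)
    _ = 2 * resp L C' + resp L C / 2 := by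
        rw [integral_const_mul, hNint]; ring

end Pool.Agent.R196.SP
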