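import Pool.Agent.R196.SP.Piece3

/-! SP5 (helper865): the total response time is the total cost. -/

set_option autoImplicit false

namespace Pool.Agent.R196.SP

lemma compQ_serve (h1 : P1) (i : ℕ) : ∀ (Q : Queue), (ids Q).Nodup → ∀ x : ℝ,
    i ∈ ids (serve x Q) → compQ i (serve x Q) = compQ i Q - x
  | [], _, x, h => by simp [serve, ids] at h
  | (j, r) :: Q, hn, x, h => by
    have hnd : j ∉ ids Q ∧ (ids Q).Nodup := List.nodup_cons.mp hn
    simp only [serve] at h ⊢
    by_cases hxr : x < r
    · rw [if_pos hxr]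
      simp only [compQ]
      split_ifs <;> ring
    · rw [if_neg hxr] at h ⊢
      have hi : i ∈ ids Q := (h1.2.2.2.1 Q (x - r)).subset h
      have hji : j ≠ i := fun h' => hnd.1 (h' ▸ hi)
      rw [compQ_serve h1 i Q hnd.2 (x - r) h]
      simp only [compQ, if_neg hji]
      ring

/-- completion time of a job which is present after all arrivals -/
lemma comp_eq (h1 : P1) (h2 : P2) {v : ℝ} (hv : 0 < v) (E : List Ev) (hE : GoodE E) (t : ℝ)
    (ht : ∀ e ∈ E, e.r ≤ t) (i : ℕ) (hi : i ∈ ids (qs v E t)) :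
    comp v i E = t + compQ i (qs v E t) / v := by
  cases E with
  | nil => simp [qs, ids] at hi
  | cons e0 E =>
    obtain ⟨f1, f2, f3, f4⟩ := head_facts h1 h2 hv hE
    have h3 : ¬ t < e0.r := not_lt.mpr (ht e0 List.mem_cons_self)
    rw [qs, if_neg h3] at hi ⊢
    have hi' := (h1.2.2.2.1 _ _).subset hi
    rw [comp, if_pos hi', compQ_serve h1 i _ f2 _ hi]
    field_simp
    ring

/-- insertion of a job into a sorted queue -/
lemma ins_sum (i0 : ℕ) (w : ℝ) : ∀ (Q : Queue), SQ Q → (ids Q).Nodup → i0 ∉ ids Q →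
    compQ i0 (ins i0 w Q) + ((ids Q).map (fun i => compQ i (ins i0 w Q) - compQ i Q)).sum =
      w + G w Q
  | [], _, _, _ => by simp [ins, compQ, ids, G]
  | (j, r) :: Q, hQ, hn, h0 => by
    have hnd : j ∉ ids Q ∧ (ids Q).Nodup := List.nodup_cons.mp hn
    have hj0 : j ≠ i0 := fun h => h0 ((mem_ids_cons _ _ _ _).mpr (Or.inl h.symm))
    have h0' : i0 ∉ ids Q := fun h => h0 ((mem_ids_cons _ _ _ _).mpr (Or.inr h))
    have hsq := List.pairwise_cons.mp hQ.1
    by_cases hw : w < r
    · have e1 : ins i0 w ((j, r) :: Q) = (i0, w) :: (j, r) :: Q := by rw [ins, if_pos hw]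
      rw [e1]
      have e2 : compQ i0 ((i0, w) :: (j, r) :: Q) = w := by rw [compQ, if_pos rfl]
      have e3 : ∀ i ∈ ids ((j, r) :: Q),
          compQ i ((i0, w) :: (j, r) :: Q) - compQ i ((j, r) :: Q) = w := by
        intro i hi
        have hi0 : i0 ≠ i := fun h => h0 (h ▸ hi)
        rw [compQ, if_neg hi0]
        ring
      have e4 : ∀ q ∈ (j, r) :: Q, min q.2 w = w := by
        intro q hq
        apply min_eq_right
        rcases List.mem_cons.mp hq with rfl | hq'
        · exact hw.le
        · have := hsq.1 q hq'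
          simp only at this
          linarith
      rw [e2, List.map_congr_left e3, G, List.map_congr_left e4, List.map_const',
        List.map_const', ids, List.length_map]
    · have e1 : ins i0 w ((j, r) :: Q) = (j, r) :: ins i0 w Q := by rw [ins, if_neg hw]
      rw [e1]
      have ih := ins_sum i0 w Q ⟨hsq.2, fun q hq => hQ.2 q (List.mem_cons_of_mem _ hq)⟩ hnd.2 h0'
      have e2 : compQ i0 ((j, r) :: ins i0 w Q) = r + compQ i0 (ins i0 w Q) := by
        rw [compQ, if_neg hj0]
      have e3 : ids ((j, r) :: Q) = j :: ids Q := rfl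
      have e4 : ∀ i ∈ ids Q, compQ i ((j, r) :: ins i0 w Q) - compQ i ((j, r) :: Q) =
          compQ i (ins i0 w Q) - compQ i Q := by
        intro i hi
        have hji : j ≠ i := fun h => hnd.1 (h ▸ hi)
        rw [compQ, if_neg hji, compQ, if_neg hji]
        ring
      have e5 : compQ j ((j, r) :: ins i0 w Q) - compQ j ((j, r) :: Q) = 0 := by
        rw [compQ, if_pos rfl, compQ, if_pos rfl]
        ring
      have e6 : G w ((j, r) :: Q) = r + G w Q := by
        simp only [G, List.map_cons, List.sum_cons]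
        rw [min_eq_left (not_lt.mp hw)]
      rw [e2, e3, List.map_cons, List.sum_cons, e5, List.map_congr_left e4, e6]
      linarith

/-- SP5 -/
theorem p5 (h1 : P1) (h2 : P2) (_h3 : P3) : P5 := by
  intro v hv E
  induction E with
  | nil =>
    intro _
    simp [tcost]
  | cons e0 E ih =>
    intro hE
    obtain ⟨hE', hr, hid⟩ := tail_good hE
    have ih' := ih hE'
    obtain ⟨f1, f2, f3, f4⟩ := head_facts h1 h2 hv hE
    obtain ⟨p2a, p2b, _⟩ := h2 v hv
    obtain ⟨hSQ, hnd⟩ := p2a E hE' e0.r
    set Q0 := qs v E e0.r with hQ0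
    set Q := ins e0.id e0.w Q0 with hQ
    have hcomp : ∀ i, comp v i (e0 :: E) = if i ∈ ids Q then e0.r + compQ i Q / v
        else comp v i E := fun i => by rw [comp]
    have hstep : ∀ e ∈ E, comp v e.id (e0 :: E) - e.r = (comp v e.id E - e.r) +
        (if e.id ∈ ids Q0 then (compQ e.id Q - compQ e.id Q0) / v else 0) := by
      intro e he
      rw [hcomp]
      have hiff : e.id ∈ ids Q ↔ e.id ∈ ids Q0 := by
        rw [f4]
        exact ⟨fun h => h.resolve_left (hid e he), Or.inr⟩
      by_cases hi : e.id ∈ ids Q0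
      · rw [if_pos (hiff.mpr hi), if_pos hi, comp_eq h1 h2 hv E hE' e0.r hr e.id hi, ← hQ0]
        ring
      · rw [if_neg fun h => hi (hiff.mp h), if_neg hi, add_zero]
    rw [List.map_cons, List.sum_cons, List.map_congr_left hstep, List.sum_map_add, ih',
      reindex E (ids Q0) (fun i => (compQ i Q - compQ i Q0) / v) hE'.nodup hnd (fun i hi => by
          obtain ⟨e, he, hee, _⟩ := p2b _ e0.r i hi
          exact ⟨e, he, hee⟩)]
    rw [hcomp e0.id, if_pos ((f4 _).mpr (Or.inl rfl)), tcost, cost, ← hQ0,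
      ← ins_sum e0.id e0.w Q0 hSQ hnd (f3 _), ← hQ]
    have e7 : ((ids Q0).map fun i => (compQ i Q - compQ i Q0) / v).sum =
        ((ids Q0).map fun i => (compQ i Q - compQ i Q0)).sum / v := by
      simp only [div_eq_mul_inv]
      rw [List.sum_map_mul_right]
    rw [e7]
    ring

end Pool.Agent.R196.SP
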