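import Pool.Agent.R196.SP.Asm2
import Pool.Agent.R62.SP.P1
import Pool.Agent.R196.SP.P2
import Pool.Agent.R196.SP.P4
import Pool.Agent.R196.SP.P7
import Pool.Agent.R196.SP.PP8
import Pool.Agent.R196.SP.PSix
import Pool.Agent.R196.SP.Piece5

set_option autoImplicit false

namespace Pool.Agent.R196.SP

theorem final : ∀ p : ℕ, 1 ≤ p → ∃ S : Scheduler p, Competitive S 6 4 :=
  main (p2 p1) (p3 p1 (p2 p1)) (p4 p1 (p2 p1) (p3 p1 (p2 p1))) (p5 p1 (p2 p1) (p3 p1 (p2 p1)))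
    p6 p7 (p8 p1 (p2 p1) p7)

end Pool.Agent.R196.SP
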