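import Pool.Agent.R196.SP.Pieces

/-! SP3 (helper865): presence interval and queue length. -/

set_option autoImplicit false

namespace Pool.Agent.R196.SP

lemma mem_ids_cons (i j : ℕ) (r : ℝ) (Q : Queue) :
    i ∈ ids ((j, r) :: Q) ↔ i = j ∨ i ∈ ids Q := by
  simp [ids]

lemma compQ_pos (i : ℕ) : ∀ Q : Queue, (∀ q ∈ Q, 0 < q.2) → i ∈ ids Q → 0 < compQ i Q
  | [], _, h => by simp [ids] at h
  | (j, r) :: Q, hQ, h => by
    have hr : 0 < r := hQ (j, r) List.mem_cons_self
    simp only [compQ]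
    split_ifs with hj
    · exact hr
    · have hi : i ∈ ids Q := ((mem_ids_cons i j r Q).mp h).resolve_left (fun h' => hj h'.symm)
      have := compQ_pos i Q (fun q hq => hQ q (List.mem_cons_of_mem _ hq)) hi
      linarith

lemma mem_serve (h1 : P1) (i : ℕ) : ∀ (Q : Queue), (∀ q ∈ Q, 0 < q.2) → (ids Q).Nodup →
    i ∈ ids Q → ∀ x : ℝ, 0 ≤ x → (i ∈ ids (serve x Q) ↔ x < compQ i Q)
  | [], _, _, h, _, _ => by simp [ids] at h
  | (j, r) :: Q, hQ, hn, h, x, hx => by
    have hsub := h1.2.2.2.1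
    have hnd : j ∉ ids Q ∧ (ids Q).Nodup := List.nodup_cons.mp hn
    have hQ' : ∀ q ∈ Q, 0 < q.2 := fun q hq => hQ q (List.mem_cons_of_mem _ hq)
    simp only [serve, compQ]
    by_cases hji : j = i
    · subst hji
      rw [if_pos rfl]
      by_cases hxr : x < r
      · rw [if_pos hxr]
        exact ⟨fun _ => hxr, fun _ => (mem_ids_cons _ _ _ _).mpr (Or.inl rfl)⟩
      · rw [if_neg hxr]
        exact ⟨fun h' => absurd ((hsub Q (x - r)).subset h') hnd.1, fun h' => absurd h' hxr⟩
    · rw [if_neg hji]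
      have hi : i ∈ ids Q := ((mem_ids_cons i j r Q).mp h).resolve_left (fun h' => hji h'.symm)
      by_cases hxr : x < r
      · rw [if_pos hxr]
        have := compQ_pos i Q hQ' hi
        exact ⟨fun _ => by linarith, fun _ => (mem_ids_cons _ _ _ _).mpr (Or.inr hi)⟩
      · rw [if_neg hxr, mem_serve h1 i Q hQ' hnd.2 hi (x - r) (by linarith)]
        constructor <;> intro h' <;> linarith

lemma reindex (E : List Ev) (S : List ℕ) (g : ℕ → ℝ) (hE : (E.map Ev.id).Nodup) (hS : S.Nodup)
    (h : ∀ i ∈ S, ∃ e ∈ E, e.id = i) :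
    (E.map (fun e => if e.id ∈ S then g e.id else 0)).sum = (S.map g).sum := by
  have h1 : ∀ E : List Ev, (E.map (fun e => if e.id ∈ S then g e.id else 0)).sum =
      (((E.map Ev.id).filter (fun i => decide (i ∈ S))).map g).sum := by
    intro E
    induction E with
    | nil => simp
    | cons e E ih =>
      simp only [List.map_cons, List.sum_cons, List.filter_cons, ih]
      by_cases hh : e.id ∈ S <;> simp [hh]
  rw [h1]
  have h2 : ((E.map Ev.id).filter (fun i => decide (i ∈ S))).Perm S := by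
    rw [List.perm_ext_iff_of_nodup (hE.filter _) hS]
    intro a
    simp only [List.mem_filter, List.mem_map, decide_eq_true_eq]
    constructor
    · exact fun h => h.2
    · intro ha
      obtain ⟨e, he, hea⟩ := h a ha
      exact ⟨⟨e, he, hea⟩, ha⟩
  exact (h2.map g).sum_eq

lemma tail_good {e0 : Ev} {E : List Ev} (hE : GoodE (e0 :: E)) :
    GoodE E ∧ (∀ e ∈ E, e.r ≤ e0.r) ∧ (∀ e ∈ E, e.id ≠ e0.id) := by
  obtain ⟨hs, hn, hw, hr⟩ := hE
  have hs' := List.pairwise_cons.mp hs
  have hn' : e0.id ∉ E.map Ev.id ∧ (E.map Ev.id).Nodup := List.nodup_cons.mp hn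
  refine ⟨⟨hs'.2, hn'.2, fun e he => hw e (List.mem_cons_of_mem _ he),
    fun e he => hr e (List.mem_cons_of_mem _ he)⟩, hs'.1, ?_⟩
  intro e he h
  exact hn'.1 (List.mem_map.mpr ⟨e, he, h⟩)

lemma head_facts (h1 : P1) (h2 : P2) {v : ℝ} (hv : 0 < v) {e0 : Ev} {E : List Ev}
    (hE : GoodE (e0 :: E)) :
    (∀ q ∈ ins e0.id e0.w (qs v E e0.r), 0 < q.2) ∧
    (ids (ins e0.id e0.w (qs v E e0.r))).Nodup ∧ (∀ t, e0.id ∉ ids (qs v E t)) ∧
    (∀ i, i ∈ ids (ins e0.id e0.w (qs v E e0.r)) ↔ i = e0.id ∨ i ∈ ids (qs v E e0.r)) := by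
  obtain ⟨hE', hr, hid⟩ := tail_good hE
  obtain ⟨p2a, p2b, _⟩ := h2 v hv
  obtain ⟨hSQ, hnd⟩ := p2a E hE' e0.r
  have hperm := h1.2.2.1 (qs v E e0.r) e0.id e0.w
  have hnot : ∀ t, e0.id ∉ ids (qs v E t) := by
    intro t ht
    obtain ⟨e, he, hee, _⟩ := p2b E t e0.id ht
    exact hid e he hee
  refine ⟨(h1.2.1 _ e0.id e0.w (hE.wpos e0 List.mem_cons_self) hSQ).2, ?_, hnot, ?_⟩
  · rw [hperm.nodup_iff]
    exact List.nodup_cons.mpr ⟨hnot _, hnd⟩
  · intro i
    rw [hperm.mem_iff, List.mem_cons]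

/-- SP3 -/
theorem p3 (h1 : P1) (h2 : P2) : P3 := by
  intro v hv E
  induction E with
  | nil =>
    intro _
    exact ⟨fun e he => absurd he List.not_mem_nil, fun e he => absurd he List.not_mem_nil,
      fun t => by simp [qs]⟩
  | cons e0 E ih =>
    intro hE
    obtain ⟨hE', hr, hid⟩ := tail_good hE
    obtain ⟨ih1, ih2, _⟩ := ih hE'
    obtain ⟨f1, f2, f3, f4⟩ := head_facts h1 h2 hv hE
    obtain ⟨p2a, p2b, _⟩ := h2 v hv
    have hsub := h1.2.2.2.1
    set Q := ins e0.id e0.w (qs v E e0.r) with hQ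
    have hqs : ∀ t, qs v (e0 :: E) t = if t < e0.r then qs v E t else serve (v * (t - e0.r)) Q :=
      fun t => by rw [qs]
    have hcomp : ∀ i, comp v i (e0 :: E) = if i ∈ ids Q then e0.r + compQ i Q / v
        else comp v i E := fun i => by rw [comp]
    -- presence after the last arrival
    have key : ∀ i ∈ ids Q, ∀ t, e0.r ≤ t →
        (i ∈ ids (serve (v * (t - e0.r)) Q) ↔ t < e0.r + compQ i Q / v) := by
      intro i hi t ht
      rw [mem_serve h1 i Q f1 f2 hi _ (mul_nonneg hv.le (by linarith))]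
      rw [← sub_lt_iff_lt_add', lt_div_iff₀ hv, mul_comm]
    have hA : ∀ e ∈ e0 :: E, ∀ t, e.id ∈ ids (qs v (e0 :: E) t) ↔
        e.r ≤ t ∧ t < comp v e.id (e0 :: E) := by
      intro e he t
      rw [hqs, hcomp]
      rcases List.mem_cons.mp he with rfl | he'
      · have hi : e.id ∈ ids Q := (f4 _).mpr (Or.inl rfl)
        rw [if_pos hi]
        by_cases ht : t < e.r
        · rw [if_pos ht]
          exact ⟨fun h => absurd h (f3 t), fun h => absurd h.1 (not_le.mpr ht)⟩
        · rw [if_neg ht, key _ hi t (not_lt.mp ht)]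
          exact ⟨fun h => ⟨not_lt.mp ht, h⟩, fun h => h.2⟩
      · have hrr := hr e he'
        have hmem : e.id ∈ ids Q ↔ e0.r < comp v e.id E := by
          rw [f4, ih1 e he' e0.r]
          exact ⟨fun h => (h.resolve_left (hid e he')).2, fun h => Or.inr ⟨hrr, h⟩⟩
        by_cases hi : e.id ∈ ids Q
        · rw [if_pos hi]
          have h3 := hmem.mp hi
          have h4 := compQ_pos e.id Q f1 hi
          have h5 : 0 < compQ e.id Q / v := div_pos h4 hv
          by_cases ht : t < e0.r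
          · rw [if_pos ht, ih1 e he' t]
            exact ⟨fun h => ⟨h.1, by linarith⟩, fun h => ⟨h.1, by linarith⟩⟩
          · rw [if_neg ht, key _ hi t (not_lt.mp ht)]
            exact ⟨fun h => ⟨hrr.trans (not_lt.mp ht), h⟩, fun h => h.2⟩
        · rw [if_neg hi]
          have h3 : comp v e.id E ≤ e0.r := not_lt.mp fun h => hi (hmem.mpr h)
          by_cases ht : t < e0.r
          · rw [if_pos ht, ih1 e he' t]
          · rw [if_neg ht]
            have ht' := not_lt.mp ht
            exact ⟨fun h => absurd ((hsub Q _).subset h) hi, fun h => absurd h.2 (by linarith)⟩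
    refine ⟨hA, ?_, ?_⟩
    · intro e he
      rw [hcomp]
      by_cases hi : e.id ∈ ids Q
      · rw [if_pos hi]
        have h5 : 0 < compQ e.id Q / v := div_pos (compQ_pos e.id Q f1 hi) hv
        rcases List.mem_cons.mp he with rfl | he'
        · linarith
        · have := hr e he'
          linarith
      · rw [if_neg hi]
        rcases List.mem_cons.mp he with rfl | he'
        · exact absurd ((f4 _).mpr (Or.inl rfl)) hi
        · exact ih2 e he'
    · intro t
      have h3 : ∀ e ∈ e0 :: E, Set.indicator (Set.Ico e.r (comp v e.id (e0 :: E)))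
          (fun _ => (1 : ℝ)) t = if e.id ∈ ids (qs v (e0 :: E) t) then 1 else 0 := by
        intro e he
        rw [Set.indicator_apply]
        by_cases h : e.id ∈ ids (qs v (e0 :: E) t)
        · rw [if_pos h, if_pos (Set.mem_Ico.mpr ((hA e he t).mp h))]
        · rw [if_neg h, if_neg fun h' => h ((hA e he t).mpr (Set.mem_Ico.mp h'))]
      rw [List.map_congr_left h3, reindex (e0 :: E) (ids (qs v (e0 :: E) t)) (fun _ => 1)
        hE.nodup (p2a _ hE t).2 (fun i hi => by
          obtain ⟨e, he, hee, _⟩ := p2b _ t i hi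
          exact ⟨e, he, hee⟩)]
      rw [List.map_const', List.sum_replicate, nsmul_eq_mul, mul_one, ids, List.length_map]

end Pool.Agent.R196.SP
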