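import Pool.Agent.R196.SP.Defs

/-!
# The pieces (exact statements)
-/

set_option autoImplicit false

open MeasureTheory

namespace Pool.Agent.R196.SP

/-- SP1 : elementary facts on `serve`, `ins`, `G`. -/
def P1 : Prop :=
  (∀ (Q : Queue) (x : ℝ), 0 ≤ x → SQ Q → SQ (serve x Q)) ∧
  (∀ (Q : Queue) (i : ℕ) (w : ℝ), 0 < w → SQ Q → SQ (ins i w Q)) ∧
  (∀ (Q : Queue) (i : ℕ) (w : ℝ), (ids (ins i w Q)).Perm (i :: ids Q)) ∧
  (∀ (Q : Queue) (x : ℝ), (ids (serve x Q)).Sublist (ids Q)) ∧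
  (∀ (Q : Queue) (x y : ℝ), 0 ≤ x → 0 ≤ y → serve (x + y) Q = serve y (serve x Q)) ∧
  (∀ (Q : Queue), SQ Q → serve 0 Q = Q) ∧
  (∀ (Q : Queue) (x w : ℝ), 0 ≤ x → 0 ≤ w → SQ Q → G w Q ≤ G w (serve x Q) + x) ∧
  (∀ (Q : Queue) (i : ℕ) (u w : ℝ), 0 ≤ u → 0 ≤ w → G w Q ≤ G w (ins i u Q)) ∧
  (∀ (Q : Queue) (w : ℝ), G w Q ≤ w * Q.length)

/-- SP2 : the queue is sorted; identifiers come from arrivals; `G` decreases at most at rate
`v`, also when further jobs arrive. -/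
def P2 : Prop := ∀ (v : ℝ), 0 < v →
  (∀ E : List Ev, GoodE E → ∀ t, SQ (qs v E t) ∧ (ids (qs v E t)).Nodup) ∧
  (∀ (E : List Ev) (t : ℝ) (i : ℕ), i ∈ ids (qs v E t) → ∃ e ∈ E, e.id = i ∧ e.r ≤ t) ∧
  (∀ (E₂ E₁ : List Ev) (T t w : ℝ), GoodE (E₂ ++ E₁) → (∀ e ∈ E₁, e.r ≤ T) →
    (∀ e ∈ E₂, T ≤ e.r) → T ≤ t → 0 ≤ w →
    G w (qs v E₁ T) ≤ G w (qs v (E₂ ++ E₁) t) + v * (t - T))

/-- SP3 : job `e` is in the queue exactly from its arrival to `comp`. -/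
def P3 : Prop := ∀ (v : ℝ), 0 < v → ∀ E : List Ev, GoodE E →
  (∀ e ∈ E, ∀ t, e.id ∈ ids (qs v E t) ↔ e.r ≤ t ∧ t < comp v e.id E) ∧
  (∀ e ∈ E, e.r < comp v e.id E) ∧
  (∀ t, ((qs v E t).length : ℝ) =
    (E.map (fun e => Set.indicator (Set.Ico e.r (comp v e.id E)) (fun _ => (1 : ℝ)) t)).sum)

/-- SP4 : job `e` receives its work in the interval from its arrival to `comp`. -/
def P4 : Prop := ∀ (v : ℝ), 0 < v → ∀ E : List Ev, GoodE E →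
  (∀ i, MeasurableSet {t | hd (qs v E t) = some i}) ∧
  (∀ e ∈ E, v * ∫ t in e.r..(comp v e.id E),
    Set.indicator {t | hd (qs v E t) = some e.id} (fun _ => (1 : ℝ)) t = e.w)

/-- SP5 : the total response time is the total cost. -/
def P5 : Prop := ∀ (v : ℝ), 0 < v → ∀ E : List Ev, GoodE E →
  (E.map (fun e => comp v e.id E - e.r)).sum = tcost v E

/-- SP6 : weak duality (lower bound for all unit speed schedules). -/
def P6 : Prop := ∀ (p : ℕ), 1 ≤ p → ∀ (L : List Task), Valid L →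
  ∀ (al : ℕ → ℝ) (C : ℕ → ℝ),
  (∀ (i : ℕ) (h : i < L.length), (L[i]).arr ≤ C i) →
  (∀ (i : ℕ) (h : i < L.length) (t : ℝ), (L[i]).arr ≤ t →
    al i ≤ (t - (L[i]).arr) + (L[i]).ser + (L[i]).ser / (2 * p) *
      ∑ l : Fin L.length, Set.indicator (Set.Ico (L[l]).arr (C l)) (fun _ => (1 : ℝ)) t) →
  (∀ (i : ℕ) (h : i < L.length) (t : ℝ), (L[i]).arr ≤ t →
    al i ≤ (t - (L[i]).arr) + (L[i]).par / p + (L[i]).par / (2 * p) *
      ∑ l : Fin L.length, Set.indicator (Set.Ico (L[l]).arr (C l)) (fun _ => (1 : ℝ)) t) →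
  ∀ (c' : ℕ → Bool) (a' : Alloc p) (C' : ℕ → ℝ), Feasible p 1 L c' a' C' →
    ∑ i : Fin L.length, al i ≤ 2 * resp L C' + resp L C / 2

section Dispatch

/-- SP7 : structure of the event lists. -/
def P7 : Prop := ∀ (M : Type) [Fintype M] [Nonempty M] [DecidableEq M] (v : M → ℝ)
  (w : M → Task → ℝ), (∀ j, 0 < v j) → ∀ (L : List Task), Valid L →
  (∀ j, ∀ τ ∈ L, 0 < w j τ) →
  (∀ j, GoodE (hist v w L.reverse j)) ∧
  (∀ (i : ℕ) (h : i < L.length), (⟨i, (L[i]).arr, w (mu v w L i h) L[i]⟩ : Ev) ∈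
    hist v w L.reverse (mu v w L i h)) ∧
  (∀ j, ∀ e ∈ hist v w L.reverse j, ∃ h : e.id < L.length,
    j = mu v w L e.id h ∧ e.r = (L[e.id]).arr ∧ e.w = w j L[e.id]) ∧
  (∀ (j : M) (f : Ev → ℝ), ((hist v w L.reverse j).map f).sum =
    ∑ i : Fin L.length, if mu v w L i i.2 = j then
      f ⟨i, (L[i]).arr, w (mu v w L i i.2) L[i]⟩ else 0) ∧
  (∀ (j : M) (t : ℝ), qs (v j) (hist v w (arrived L t).reverse j) t =
    qs (v j) (hist v w L.reverse j) t)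

/-- SP8 : the costs. -/
def P8 : Prop := ∀ (M : Type) [Fintype M] [Nonempty M] [DecidableEq M] (v : M → ℝ)
  (w : M → Task → ℝ), (∀ j, 0 < v j) → ∀ (L : List Task), Valid L →
  (∀ j, ∀ τ ∈ L, 0 < w j τ) →
  (∑ j, tcost (v j) (hist v w L.reverse j) = ∑ i : Fin L.length, alpha v w L i i.2) ∧
  (∀ (i : ℕ) (h : i < L.length) (j : M) (t : ℝ), (L[i]).arr ≤ t →
    alpha v w L i h ≤ (t - (L[i]).arr) + w j L[i] / v j +
      w j L[i] / v j * (qs (v j) (hist v w L.reverse j) t).length)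

end Dispatch

end Pool.Agent.R196.SP
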