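import Mathlib

/-!
# MP_858cbd_lc : decide-on-arrival scheduling of serial/parallel tasks, the model and the statement

Time is continuous.  A task sequence is a finite list of tasks in order of arrival.
-/

set_option autoImplicit false

open MeasureTheory

namespace Pool.Agent.R196.SP

/-- A task: arrival time, work of the serial implementation, work of the parallel one. -/
structure Task where
  /-- arrival time -/
  arr : ℝ
  /-- work of the serial implementation -/
  ser : ℝ
  /-- work of the parallel implementation -/
  par : ℝ

/-- Task sequences: arrival times are nonnegative and nondecreasing, `0 < ser < par`. -/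
structure Valid (L : List Task) : Prop where
  arr_nonneg : ∀ τ ∈ L, 0 ≤ τ.arr
  ser_pos : ∀ τ ∈ L, 0 < τ.ser
  ser_lt : ∀ τ ∈ L, τ.ser < τ.par
  sorted : L.Pairwise (fun a b => a.arr ≤ b.arr)

/-- A processor allocation: `a k t = some i` means that processor `k` works at time `t` on the
task number `i` (tasks are numbered `0, 1, ...`), `a k t = none` that it is idle.  So a processor
works on at most one task at any time. -/
abbrev Alloc (p : ℕ) := Fin p → ℝ → Option ℕ

/-- The number of processors that work on task `i` at time `t`. -/
def load {p : ℕ} (a : Alloc p) (i : ℕ) (t : ℝ) : ℕ :=
  (Finset.univ.filter (fun k => a k t = some i)).card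

/-- The work of the chosen implementation (`true` = parallel, `false` = serial). -/
def work (c : Bool) (τ : Task) : ℝ := if c then τ.par else τ.ser

/-- `(c, a)` is a schedule for `L` on `p` processors of speed `s`, in which task `i` is
completed by time `C i`: a processor works on a task only after its arrival, a task for which the
serial implementation is chosen is at any time processed by at most one processor, and by time
`C i` task `i` has received the work of its chosen implementation (each processor that works on it
contributes at rate `s`). -/
structure Feasible (p : ℕ) (s : ℝ) (L : List Task) (c : ℕ → Bool) (a : Alloc p)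
    (C : ℕ → ℝ) : Prop where
  meas : ∀ (k : Fin p) (i : ℕ), MeasurableSet {t | a k t = some i}
  arrived : ∀ (k : Fin p) (t : ℝ) (i : ℕ), a k t = some i → ∃ h : i < L.length, (L[i]).arr ≤ t
  serial : ∀ i, c i = false → ∀ t, load a i t ≤ 1
  arr_le : ∀ (i : ℕ) (h : i < L.length), (L[i]).arr ≤ C i
  done : ∀ (i : ℕ) (h : i < L.length),
    work (c i) L[i] ≤ s * ∫ t in (L[i]).arr..(C i), (load a i t : ℝ)

/-- A deterministic online decide-on-arrival scheduler for `p` processors.
`choose H` is the implementation chosen for the last task of the list `H`, where `H` is the list
of the tasks up to and including that task (so nothing about later tasks is used);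
`alloc H t k` is the number of the task on which processor `k` works at time `t` when `H` is the
list of all tasks that have arrived up to time `t`. -/
structure Scheduler (p : ℕ) where
  /-- serial/parallel decision for the last task of the list, made at its arrival -/
  choose : List Task → Bool
  /-- processor allocation -/
  alloc : List Task → ℝ → Fin p → Option ℕ

/-- The tasks of `L` that have arrived by time `t`. -/
noncomputable def arrived (L : List Task) (t : ℝ) : List Task :=
  L.filter (fun τ => decide (τ.arr ≤ t))

/-- The choices of a scheduler on the sequence `L`. -/
def Scheduler.c {p : ℕ} (S : Scheduler p) (L : List Task) (i : ℕ) : Bool :=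
  S.choose (L.take (i + 1))

/-- The allocation of a scheduler on the sequence `L`. -/
noncomputable def Scheduler.a {p : ℕ} (S : Scheduler p) (L : List Task) : Alloc p :=
  fun k t => S.alloc (arrived L t) t k

/-- Total response time (the mean response time is this divided by the number of tasks). -/
noncomputable def resp (L : List Task) (C : ℕ → ℝ) : ℝ :=
  ∑ i : Fin L.length, (C i - (L[i]).arr)

/-- `S` with speed `s` is `K`-competitive for mean response time against every schedule on
unit speed processors. -/
def Competitive {p : ℕ} (S : Scheduler p) (s K : ℝ) : Prop :=
  ∀ L : List Task, Valid L → ∃ C : ℕ → ℝ, Feasible p s L (S.c L) (S.a L) C ∧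
    ∀ (c' : ℕ → Bool) (a' : Alloc p) (C' : ℕ → ℝ), Feasible p 1 L c' a' C' →
      resp L C ≤ K * resp L C'

/-- The result: for every number `p` of processors there is a decide-on-arrival scheduler which
with speed `6` is `4`-competitive. -/
def Main : Prop := ∀ p : ℕ, 1 ≤ p → ∃ S : Scheduler p, Competitive S 6 4

end Pool.Agent.R196.SP
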